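import Pool.Agent.TH656.Bx.Sound

/-!
# The treewidth of the graph
-/

set_option autoImplicit false

namespace Pool.Agent.TH656.Bx

/-- The position of a vertex on its path. -/
def pos (v : Vt) : ℕ := if v.1 = 2 then v.2.1 else v.2.2

section

variable {a : List ℕ} {b B : ℕ}

theorem path_adj {u v : Vt} (hu : u ∈ vl a b B) (hv : v ∈ vl a b B) (h2u : 2 ≤ u.1) (h2v : 2 ≤ v.1)
    (h : Adj b B u v) : u.1 = v.1 ∧ (u.1 = 3 → u.2.1 = v.2.1) ∧
      (pos u = pos v + 1 ∨ pos v = pos u + 1) := by
  obtain ⟨n, i, j⟩ := u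
  obtain ⟨n', i', j'⟩ := v
  rcases mem_vl.1 hu with h1 | h1 | h1 | h1
  · have := h1.1
    dsimp only at this h2u
    omega
  · simp at h1
    dsimp only at h2u
    omega
  · rcases mem_vl.1 hv with h3 | h3 | h3 | h3
    · have := h3.1
      dsimp only at this h2v
      omega
    · simp at h3
      dsimp only at h2v
      omega
    · obtain ⟨rfl, h5, h6⟩ := h1
      dsimp only at h6
      subst h6
      obtain ⟨rfl, h7, h8⟩ := h3
      dsimp only at h8
      subst h8
      rw [adj_ff] at h
      simp only [pos]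
      simp
      omega
    · obtain ⟨rfl, h5, h6⟩ := h1
      dsimp only at h6
      subst h6
      obtain ⟨rfl, h7, h8⟩ := h3
      exact absurd h adj_fi
  · rcases mem_vl.1 hv with h3 | h3 | h3 | h3
    · have := h3.1
      dsimp only at this h2v
      omega
    · simp at h3
      dsimp only at h2v
      omega
    · obtain ⟨rfl, h5, h6⟩ := h3
      dsimp only at h6
      subst h6
      obtain ⟨rfl, h7, h8⟩ := h1
      exact absurd h.symm adj_fi
    · obtain ⟨rfl, h5, h6⟩ := h1
      obtain ⟨rfl, h7, h8⟩ := h3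
      rw [adj_ii] at h
      simp only [pos]
      simp
      omega

theorem pos_inj {u v : Vt} (hu : u ∈ vl a b B) (hv : v ∈ vl a b B) (h2u : 2 ≤ u.1) (h2v : 2 ≤ v.1)
    (h1 : u.1 = v.1) (h2 : u.1 = 3 → u.2.1 = v.2.1) (h3 : pos u = pos v) : u = v := by
  obtain ⟨n, i, j⟩ := u
  obtain ⟨n', i', j'⟩ := v
  dsimp only at h1
  subst h1
  rcases mem_vl.1 hu with h | h | h | h
  · have := h.1
    dsimp only at this h2u
    omega
  · simp at h
    dsimp only at h2u
    omega
  · obtain ⟨rfl, h5, h6⟩ := h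
    rcases mem_vl.1 hv with h' | h' | h' | h'
    · exact absurd h'.1 (by norm_num)
    · simp at h'
    · obtain ⟨-, h5', h6'⟩ := h'
      dsimp only at h6 h6'
      simp only [pos, if_true] at h3
      rw [h3, h6, h6']
    · exact absurd h'.1 (by norm_num)
  · obtain ⟨rfl, h5, h6⟩ := h
    have h7 := h2 rfl
    dsimp only at h7
    simp [pos] at h3
    rw [h7, h3]

/-- The chordal supergraph. -/
def sup (a : List ℕ) (b B : ℕ) : SimpleGraph (Fin (vl a b B).length) where
  Adj i j := i ≠ j ∧ (((vl a b B).get i).1 ≤ 1 ∨ ((vl a b B).get j).1 ≤ 1 ∨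
    Adj b B ((vl a b B).get i) ((vl a b B).get j))
  symm := ⟨fun i j h => ⟨h.1.symm, by
    rcases h.2 with h2 | h2 | h2
    · exact Or.inr (Or.inl h2)
    · exact Or.inl h2
    · exact Or.inr (Or.inr h2.symm)⟩⟩
  loopless := ⟨fun i h => h.1 rfl⟩

theorem le_sup : (gr a b B).graph ≤ sup a b B := by
  intro i j h
  have h1 := (lgraph_adj (l := vl a b B) (ad := ad b B) i j).1 h
  exact ⟨h1.1, Or.inr (Or.inr h1.2)⟩

theorem fin_facts (k : ℕ) : (1 : Fin (k + 4)) ≠ 0 ∧ (1 : Fin (k + 4)) + 1 ≠ 0 ∧
    (1 : Fin (k + 4)) + 1 + 1 ≠ 0 := by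
  have e1 : ((1 : Fin (k + 4)) : ℕ) = 1 := by simp
  have e2 : (((1 : Fin (k + 4)) + 1 : Fin (k + 4)) : ℕ) = 2 := by
    rw [Fin.val_add, e1]
    exact Nat.mod_eq_of_lt (by omega)
  have e3 : (((1 : Fin (k + 4)) + 1 + 1 : Fin (k + 4)) : ℕ) = 3 := by
    rw [Fin.val_add, e2, e1]
    exact Nat.mod_eq_of_lt (by omega)
  refine ⟨fun h => ?_, fun h => ?_, fun h => ?_⟩
  · have := congrArg Fin.val h
    rw [e1, Fin.val_zero] at this
    omega
  · have := congrArg Fin.val h
    rw [e2, Fin.val_zero] at this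
    omega
  · have := congrArg Fin.val h
    rw [e3, Fin.val_zero] at this
    omega

theorem chordal_sup : Chordal (sup a b B) := by
  intro n hn
  refine ⟨fun φ => ?_⟩
  obtain ⟨k, rfl⟩ : ∃ k, n = k + 4 := ⟨n - 4, by omega⟩
  have hadj : ∀ x y : Fin (k + 4), (sup a b B).Adj (φ x) (φ y) ↔ x - y = 1 ∨ y - x = 1 := by
    intro x y
    rw [φ.map_adj_iff]
    exact SimpleGraph.cycleGraph_adj
  obtain ⟨h10, h20, h30⟩ := fin_facts k
  have hpath : ∀ x : Fin (k + 4), 2 ≤ ((vl a b B).get (φ x)).1 := by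
    intro x
    by_contra hc
    have h1 : (sup a b B).Adj (φ x) (φ (x + (1 + 1))) := by
      refine ⟨?_, Or.inl (by omega)⟩
      intro h2
      have h3 := φ.injective h2
      apply h20
      have h4 : x + 0 = x + (1 + 1) := by rw [add_zero]; exact h3
      exact (add_left_cancel h4).symm
    rw [hadj] at h1
    rcases h1 with h1 | h1
    · apply h30
      have e : x - (x + (1 + 1)) = - (1 + 1) := by abel
      rw [e] at h1
      have h2 : (1 : Fin (k + 4)) + (1 + 1) = 0 := by
        nth_rewrite 1 [← h1]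
        abel
      rw [add_assoc]
      exact h2
    · apply h10
      have e : x + (1 + 1) - x = 1 + 1 := by abel
      rw [e] at h1
      exact add_left_cancel (h1.trans (add_zero 1).symm)
  obtain ⟨x, hx⟩ := Finite.exists_max (fun x : Fin (k + 4) => pos ((vl a b B).get (φ x)))
  have hmem : ∀ x : Fin (k + 4), (vl a b B).get (φ x) ∈ vl a b B := fun x => List.get_mem _ _
  have hpa : ∀ y, (sup a b B).Adj (φ x) (φ y) →
      Adj b B ((vl a b B).get (φ x)) ((vl a b B).get (φ y)) := by
    intro y hy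
    rcases hy.2 with h1 | h1 | h1
    · have := hpath x
      omega
    · have := hpath y
      omega
    · exact h1
  have h1 := path_adj (hmem _) (hmem _) (hpath x) (hpath (x + 1))
    (hpa (x + 1) ((hadj _ _).2 (Or.inr (by abel))))
  have h2 := path_adj (hmem _) (hmem _) (hpath x) (hpath (x - 1))
    (hpa (x - 1) ((hadj _ _).2 (Or.inl (by abel))))
  have h3 := hx (x + 1)
  have h4 := hx (x - 1)
  have h5 := pos_inj (hmem (x + 1)) (hmem (x - 1)) (hpath _) (hpath _) (h1.1.symm.trans h2.1)
    (fun h => (h1.2.1 (h1.1.trans h)).symm.trans (h2.2.1 (h1.1.trans h))) (by omega)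
  have h6 : φ (x + 1) = φ (x - 1) := (List.Nodup.get_inj_iff (nodup_vl a b B)).1 h5
  have h7 := φ.injective h6
  apply h20
  have e : (1 : Fin (k + 4)) + 1 = (x + 1) - (x - 1) := by abel
  rw [e, h7]
  abel

theorem clique_sup : (sup a b B).cliqueNum ≤ 12 := by
  classical
  obtain ⟨s, hs⟩ := (sup a b B).exists_isNClique_cliqueNum
  have hinj : Function.Injective (fun i => (vl a b B).get i) := fun i j h =>
    (List.Nodup.get_inj_iff (nodup_vl a b B)).1 h
  set T := s.image (fun i => (vl a b B).get i) with hT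
  have hcard : T.card = s.card := Finset.card_image_of_injective _ hinj
  have h1 : (T.filter (fun v => v.1 ≤ 1)).card ≤ 10 := by
    have h2 : T.filter (fun v => v.1 ≤ 1) ⊆ hubs.toFinset := by
      intro v hv
      rw [Finset.mem_filter] at hv
      rw [hT, Finset.mem_image] at hv
      obtain ⟨⟨i, _, rfl⟩, h3⟩ := hv
      have h4 : (vl a b B).get i ∈ vl a b B := List.get_mem _ _
      generalize (vl a b B).get i = v at *
      obtain ⟨n, i, j⟩ := v
      rw [List.mem_toFinset]
      rcases mem_vl.1 h4 with h | h | h | h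
      · obtain ⟨rfl, h5, h6⟩ := h
        dsimp only at h5 h6
        interval_cases i <;> interval_cases j <;> decide
      · rw [h]
        decide
      · have := h.1
        dsimp only at this h3
        omega
      · have := h.1
        dsimp only at this h3
        omega
    exact (Finset.card_le_card h2).trans (by decide)
  have h2 : (T.filter (fun v => ¬ v.1 ≤ 1)).card ≤ 2 := by
    by_contra hc
    rw [not_le] at hc
    obtain ⟨x, hx, y, hy, z, hz, hxy, hxz, hyz⟩ := Finset.two_lt_card.1 hc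
    have key : ∀ x ∈ T.filter (fun v => ¬ v.1 ≤ 1), ∀ y ∈ T.filter (fun v => ¬ v.1 ≤ 1), x ≠ y →
        (pos x = pos y + 1 ∨ pos y = pos x + 1) := by
      intro x hx y hy hxy
      rw [Finset.mem_filter] at hx hy
      rw [hT, Finset.mem_image] at hx hy
      obtain ⟨⟨i, hi, rfl⟩, h3⟩ := hx
      obtain ⟨⟨j, hj, rfl⟩, h4⟩ := hy
      have hij : i ≠ j := by
        rintro rfl
        exact hxy rfl
      have h5 := hs.1 hi hj hij
      rcases h5.2 with h6 | h6 | h6
      · exact absurd h6 h3
      · exact absurd h6 h4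
      · exact (path_adj (List.get_mem _ _) (List.get_mem _ _) (by omega) (by omega) h6).2.2
    have k1 := key x hx y hy hxy
    have k2 := key x hx z hz hxz
    have k3 := key y hy z hz hyz
    omega
  have h3 := Finset.card_filter_add_card_filter_not (s := T) (fun v => v.1 ≤ 1)
  have h4 := hs.2
  omega

theorem tw_gr : treewidth (gr a b B).graph ≤ 11 :=
  treewidth_le (V := Fin (vl a b B).length) le_sup chordal_sup clique_sup

end

end Pool.Agent.TH656.Bx
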