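import Pool.Agent.TH656.Bx.Sound

/-!
# A packing gives a box representation in dimension four
-/

set_option autoImplicit false

namespace Pool.Agent.TH656.Bx

theorem sum_step {a : List ℕ} {f : ℕ → ℕ} {j i N : ℕ} (hi : i < N) (hfi : f i = j) :
    ∑ i ∈ (Finset.range i).filter (fun i => f i = j), a.getD i 0 + a.getD i 0 ≤
      ∑ i ∈ (Finset.range N).filter (fun i => f i = j), a.getD i 0 := by
  classical
  have hni : i ∉ (Finset.range i).filter (fun i => f i = j) := by simp
  have he := Finset.sum_insert (f := fun i => a.getD i 0) hni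
  rw [add_comm, ← he]
  refine Finset.sum_le_sum_of_subset ?_
  intro x hx
  rw [Finset.mem_insert] at hx
  rw [Finset.mem_filter, Finset.mem_range]
  rcases hx with rfl | hx
  · exact ⟨hi, hfi⟩
  · rw [Finset.mem_filter, Finset.mem_range] at hx
    exact ⟨by omega, hx.2⟩

/-- The starting points of the items on the line. -/
structure Start (a : List ℕ) (b B : ℕ) (s : ℕ → ℕ) : Prop where
  ex : ∀ i < a.length, ∃ j o, j < b ∧ s i = j * (6 * B + 1) + 2 + 6 * o ∧ o + a.getD i 0 ≤ B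
  disj : ∀ i < a.length, ∀ i' < a.length, i ≠ i' →
    s i + 6 * a.getD i 0 ≤ s i' ∨ s i' + 6 * a.getD i' 0 ≤ s i

theorem exists_start {a : List ℕ} {b B : ℕ} {f : ℕ → ℕ} (hf : ∀ i < a.length, f i < b)
    (hs : ∀ j < b, ∑ i ∈ (Finset.range a.length).filter (fun i => f i = j), a.getD i 0 ≤ B) :
    ∃ s, Start a b B s := by
  have h1 : ∀ i < a.length,
      ∑ i ∈ (Finset.range i).filter (fun i' => f i' = f i), a.getD i 0 + a.getD i 0 ≤ B :=
    fun i hi => (sum_step hi rfl).trans (hs _ (hf i hi))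
  refine ⟨fun i => f i * (6 * B + 1) + 2 +
    6 * ∑ i ∈ (Finset.range i).filter (fun i' => f i' = f i), a.getD i 0, ?_, ?_⟩
  · intro i hi
    exact ⟨_, _, hf i hi, rfl, h1 i hi⟩
  · have key : ∀ i < a.length, ∀ i' < a.length, f i < f i' →
        f i * (6 * B + 1) + 2 +
        6 * ∑ i ∈ (Finset.range i).filter (fun i' => f i' = f i), a.getD i 0 + 6 * a.getD i 0 ≤
        f i' * (6 * B + 1) + 2 +
        6 * ∑ i ∈ (Finset.range i').filter (fun i => f i = f i'), a.getD i 0 := by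
      intro i hi i' hi' hlt
      have h2 := h1 i hi
      have h3 : (f i + 1) * (6 * B + 1) ≤ f i' * (6 * B + 1) := Nat.mul_le_mul_right _ hlt
      have h4 : (f i + 1) * (6 * B + 1) = f i * (6 * B + 1) + (6 * B + 1) := by ring
      omega
    have key2 : ∀ i < a.length, ∀ i' < a.length, f i = f i' → i < i' →
        f i * (6 * B + 1) + 2 +
        6 * ∑ i ∈ (Finset.range i).filter (fun i' => f i' = f i), a.getD i 0 + 6 * a.getD i 0 ≤
        f i' * (6 * B + 1) + 2 +
        6 * ∑ i ∈ (Finset.range i').filter (fun i => f i = f i'), a.getD i 0 := by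
      intro i hi i' hi' he hlt
      have h2 := sum_step (a := a) (f := f) (j := f i) hlt rfl
      rw [← he]
      omega
    intro i hi i' hi' hne
    rcases lt_trichotomy (f i) (f i') with h | h | h
    · exact Or.inl (key i hi i' hi' h)
    · rcases lt_or_gt_of_ne hne with h3 | h3
      · exact Or.inl (key2 i hi i' hi' h h3)
      · exact Or.inr (key2 i' hi' i hi h.symm h3)
    · exact Or.inr (key i' hi' i hi h)

section

variable (a : List ℕ) (b B : ℕ) (s : ℕ → ℕ)

/-- left ends -/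
def cl (v : Vt) (k : ℕ) : ℕ :=
  if k < 3 then
    if v.1 = 0 then (if v.2.1 = k then 2 * v.2.2 else 0)
    else if v.1 = 1 then 0
    else if v.1 = 2 then 1
    else (if v.2.2 % 3 = k then 3 else 1)
  else
    if v.1 = 0 then 0
    else if v.1 = 1 then 3
    else if v.1 = 2 then 2 * v.2.1
    else 2 * s v.2.1 + 1 + 4 * (v.2.2 - 1)

/-- right ends -/
def cr (v : Vt) (k : ℕ) : ℕ :=
  if k < 3 then
    if v.1 = 0 then (if v.2.1 = k then 2 * v.2.2 + 1 else 5)
    else if v.1 = 1 then 5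
    else if v.1 = 2 then (if al B v.2.1 k = true then 2 else 4)
    else 4
  else
    if v.1 = 0 then 2 * (b * (6 * B + 1)) + 2
    else if v.1 = 1 then 2 * (b * (6 * B + 1)) - 1
    else if v.1 = 2 then 2 * v.2.1 + 2
    else 2 * s v.2.1 + 1 + 4 * min v.2.2 (3 * a.getD v.2.1 0 - 2)

/-- the boxes meet -/
def Mt (u v : Vt) : Prop := ∀ k < 4, cl s u k ≤ cr a b B s v k ∧ cl s v k ≤ cr a b B s u k

variable {a b B s}

theorem Mt.symm {u v : Vt} (h : Mt a b B s u v) : Mt a b B s v u := fun k hk => (h k hk).symm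

theorem mt_iff {u v : Vt} : Mt a b B s u v ↔
    (∀ k < 3, cl s u k ≤ cr a b B s v k ∧ cl s v k ≤ cr a b B s u k) ∧
    (cl s u 3 ≤ cr a b B s v 3 ∧ cl s v 3 ≤ cr a b B s u 3) := by
  constructor
  · intro h
    exact ⟨fun k hk => h k (by omega), h 3 (by norm_num)⟩
  · intro h k hk
    rcases Nat.lt_succ_iff_lt_or_eq.1 hk with h1 | rfl
    · exact h.1 k h1
    · exact h.2

theorem Start.bd (hs : Start a b B s) {i : ℕ} (hi : i < a.length) :
    2 ≤ s i ∧ s i + 6 * a.getD i 0 ≤ b * (6 * B + 1) + 1 := by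
  obtain ⟨j, o, hj, h1, h2⟩ := hs.ex i hi
  have h3 : (j + 1) * (6 * B + 1) ≤ b * (6 * B + 1) := Nat.mul_le_mul_right _ hj
  have h4 : (j + 1) * (6 * B + 1) = j * (6 * B + 1) + (6 * B + 1) := by ring
  omega

theorem mt_hh {τ j σ j' : ℕ} (hτ : τ < 3) (hj : j < 3) (hσ : σ < 3) (hj' : j' < 3)
    (hne : ((0, τ, j) : Vt) ≠ (0, σ, j')) : τ ≠ σ ↔ Mt a b B s (0, τ, j) (0, σ, j') := by
  rw [mt_iff]
  constructor
  · intro h
    refine ⟨fun k hk => ?_, ?_⟩
    · simp only [cl, cr, hk, if_true]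
      split_ifs <;> omega
    · simp [cl, cr]
  · rintro ⟨h, -⟩ rfl
    have h1 := h τ hτ
    simp [cl, cr, hτ] at h1
    have h2 : j = j' := by omega
    exact hne (by rw [h2])

theorem mt_hz {τ j : ℕ} (hb : 1 ≤ b * (6 * B + 1)) (hj : j < 3) :
    Mt a b B s (0, τ, j) (1, 0, 0) := by
  rw [mt_iff]
  refine ⟨fun k hk => ?_, ?_⟩
  · simp only [cl, cr, hk, if_true]
    simp [-List.getD_eq_getElem?_getD]
    split_ifs <;> omega
  · simp [cl, cr]
    omega

theorem mt_hf {τ j m : ℕ} (hτ : τ < 3) (hj : j < 3) (hm : m ≤ b * (6 * B + 1)) :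
    ¬ (j = 2 ∧ al B m τ = true) ↔ Mt a b B s (0, τ, j) (2, m, 0) := by
  rw [mt_iff]
  constructor
  · intro h
    refine ⟨fun k hk => ?_, ?_⟩
    · simp only [cl, cr, hk, if_true]
      by_cases h1 : τ = k
      · subst h1
        by_cases h2 : al B m τ = true
        · have : j ≠ 2 := fun hc => h ⟨hc, h2⟩
          simp [h2]
          omega
        · simp [h2]
          omega
      · simp [h1]
    · simp [cl, cr]
      omega
  · rintro ⟨h, -⟩ ⟨rfl, h2⟩
    have h1 := h τ hτ
    simp [cl, cr, hτ, h2] at h1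

theorem mt_hi {τ j i q : ℕ} (hs : Start a b B s) (hτ : τ < 3) (hj : j < 3) (hi : i < a.length)
    (hq : q < 3 * a.getD i 0) :
    ¬ (j = 0 ∧ q % 3 = τ) ↔ Mt a b B s (0, τ, j) (3, i, q) := by
  rw [mt_iff]
  have hbd := hs.bd hi
  constructor
  · intro h
    refine ⟨fun k hk => ?_, ?_⟩
    · simp only [cl, cr, hk, if_true]
      by_cases h1 : τ = k
      · subst h1
        by_cases h2 : q % 3 = τ
        · have : j ≠ 0 := fun hc => h ⟨hc, h2⟩
          simp [h2]
          omega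
        · simp [h2]
          omega
      · simp [h1]
        split_ifs <;> omega
    · simp only [cl, cr]
      simp [-List.getD_eq_getElem?_getD]
      omega
  · rintro ⟨h, -⟩ ⟨rfl, h2⟩
    have h1 := h τ hτ
    simp [cl, cr, hτ, h2] at h1

theorem mt_zf {m : ℕ} (hb : 2 ≤ b * (6 * B + 1)) :
    (0 < m ∧ m < b * (6 * B + 1)) ↔ Mt a b B s (1, 0, 0) (2, m, 0) := by
  rw [mt_iff]
  constructor
  · intro h
    refine ⟨fun k hk => ?_, ?_⟩
    · simp [cl, cr, hk]
    · simp [cl, cr]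
      omega
  · rintro ⟨-, h⟩
    simp [cl, cr] at h
    omega

theorem mt_zi {i q : ℕ} (hs : Start a b B s) (hi : i < a.length) (hq : q < 3 * a.getD i 0) :
    Mt a b B s (1, 0, 0) (3, i, q) := by
  rw [mt_iff]
  have hbd := hs.bd hi
  refine ⟨fun k hk => ?_, ?_⟩
  · simp only [cl, cr, hk, if_true]
    simp [-List.getD_eq_getElem?_getD]
    split_ifs <;> omega
  · simp only [cl, cr]
    simp [-List.getD_eq_getElem?_getD]
    omega

theorem mt_ff {m m' : ℕ} (hne : m ≠ m') :
    (m' = m + 1 ∨ m = m' + 1) ↔ Mt a b B s (2, m, 0) (2, m', 0) := by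
  rw [mt_iff]
  constructor
  · intro h
    refine ⟨fun k hk => ?_, ?_⟩
    · simp only [cl, cr, hk, if_true]
      simp [-List.getD_eq_getElem?_getD]
      constructor <;> split_ifs <;> omega
    · simp [cl, cr]
      omega
  · rintro ⟨-, h⟩
    simp [cl, cr] at h
    omega

theorem mt_fi {m i q : ℕ} (hs : Start a b B s) (hi : i < a.length) (hq : q < 3 * a.getD i 0) :
    ¬ Mt a b B s (2, m, 0) (3, i, q) := by
  rw [mt_iff]
  rintro ⟨h1, h2⟩
  have hq3 : q % 3 < 3 := Nat.mod_lt _ (by norm_num)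
  have h3 := h1 (q % 3) hq3
  have h4 : ¬ al B m (q % 3) = true := by
    intro hc
    simp [cl, cr, hq3, hc] at h3
  apply h4
  simp only [cl, cr] at h2
  simp [-List.getD_eq_getElem?_getD] at h2
  obtain ⟨j, o, hj, h5, h6⟩ := hs.ex i hi
  obtain ⟨y, hy⟩ : ∃ y, m = j * (6 * B + 1) + y := ⟨m - j * (6 * B + 1), by omega⟩
  have hy2 : y < 6 * B + 1 := by omega
  have hy3 : m % (6 * B + 1) = y := by
    rw [hy, mul_comm j, Nat.mul_add_mod]
    exact Nat.mod_eq_of_lt hy2
  rw [al_iff, hy3]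
  omega

theorem mt_ii {i q i' q' : ℕ} (hs : Start a b B s) (hi : i < a.length)
    (hq : q < 3 * a.getD i 0) (hi' : i' < a.length) (hq' : q' < 3 * a.getD i' 0)
    (hne : ((3, i, q) : Vt) ≠ (3, i', q')) :
    (i = i' ∧ (q' = q + 1 ∨ q = q' + 1)) ↔ Mt a b B s (3, i, q) (3, i', q') := by
  rw [mt_iff]
  constructor
  · rintro ⟨rfl, h⟩
    refine ⟨fun k hk => ?_, ?_⟩
    · simp only [cl, cr, hk, if_true]
      simp [-List.getD_eq_getElem?_getD]
      constructor <;> split_ifs <;> omega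
    · simp only [cl, cr]
      simp [-List.getD_eq_getElem?_getD]
      omega
  · rintro ⟨-, h⟩
    simp only [cl, cr] at h
    simp [-List.getD_eq_getElem?_getD] at h
    by_cases hii : i = i'
    · subst hii
      have hqq : q ≠ q' := fun hc => hne (by rw [hc])
      refine ⟨rfl, ?_⟩
      omega
    · exfalso
      rcases hs.disj i hi i' hi' hii with h1 | h1 <;> omega

/-- **Completeness.** -/
theorem complete (hb : 1 ≤ b) (hB : 1 ≤ B) (h : ∃ f : ℕ → ℕ, (∀ i < a.length, f i < b) ∧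
      ∀ j < b, ∑ i ∈ (Finset.range a.length).filter (fun i => f i = j), a.getD i 0 ≤ B) :
    HasBoxRep (gr a b B).graph 4 := by
  have hM : 7 ≤ b * (6 * B + 1) := by
    calc 7 = 1 * 7 := by norm_num
      _ ≤ b * (6 * B + 1) := Nat.mul_le_mul hb (by omega)
  obtain ⟨f, hf1, hf2⟩ := h
  obtain ⟨s, hs⟩ := exists_start hf1 hf2
  refine (lrep_iff (nodup_vl a b B)).2 ⟨fun v k => (cl s v k : ℝ),
    fun v k => (cr a b B s v k : ℝ), ?_, ?_⟩
  · intro v hv k
    dsimp only
    rw [Nat.cast_le]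
    obtain ⟨k, hk⟩ := k
    dsimp only
    obtain ⟨n, i, j⟩ := v
    rcases mem_vl.1 hv with h | h | h | h
    · obtain ⟨rfl, h1, h2⟩ := h
      simp only [cl, cr]
      simp [-List.getD_eq_getElem?_getD]
      split_ifs <;> omega
    · obtain ⟨rfl, rfl, rfl⟩ := (by simpa using h : n = 1 ∧ i = 0 ∧ j = 0)
      simp only [cl, cr]
      simp [-List.getD_eq_getElem?_getD]
      split_ifs <;> omega
    · obtain ⟨rfl, h1, h2⟩ := h
      simp only [cl, cr]
      simp [-List.getD_eq_getElem?_getD]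
      split_ifs <;> omega
    · obtain ⟨rfl, h1, h2⟩ := h
      dsimp only at h1 h2
      simp only [cl, cr]
      simp [-List.getD_eq_getElem?_getD]
      split_ifs <;> omega
  · have key : ∀ u ∈ vl a b B, ∀ v ∈ vl a b B, u ≠ v → (Adj b B u v ↔ Mt a b B s u v) := by
      intro u hu v hv huv
      have hsym : ∀ u v : Vt, (Adj b B v u ↔ Mt a b B s v u) → (Adj b B u v ↔ Mt a b B s u v) :=
        fun u v h => ⟨fun h1 => (h.1 h1.symm).symm, fun h1 => (h.2 h1.symm).symm⟩
      obtain ⟨n, i, j⟩ := u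
      obtain ⟨n', i', j'⟩ := v
      rcases mem_vl.1 hu with h | h | h | h <;> rcases mem_vl.1 hv with h' | h' | h' | h'
      · obtain ⟨rfl, h1, h2⟩ := h
        obtain ⟨rfl, h1', h2'⟩ := h'
        rw [adj_hh]
        exact mt_hh h1 h2 h1' h2' huv
      · obtain ⟨rfl, h1, h2⟩ := h
        obtain ⟨rfl, rfl, rfl⟩ := (by simpa using h' : n' = 1 ∧ i' = 0 ∧ j' = 0)
        exact ⟨fun _ => mt_hz (by omega) h2, fun _ => adj_hz⟩
      · obtain ⟨rfl, h1, h2⟩ := h
        obtain ⟨rfl, h1', h2'⟩ := h'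
        dsimp only at h2'
        subst h2'
        rw [adj_hf]
        exact mt_hf h1 h2 h1'
      · obtain ⟨rfl, h1, h2⟩ := h
        obtain ⟨rfl, h1', h2'⟩ := h'
        rw [adj_hi]
        exact mt_hi hs h1 h2 h1' h2'
      · obtain ⟨rfl, rfl, rfl⟩ := (by simpa using h : n = 1 ∧ i = 0 ∧ j = 0)
        obtain ⟨rfl, h1', h2'⟩ := h'
        exact hsym _ _ ⟨fun _ => mt_hz (by omega) h2', fun _ => adj_hz⟩
      · exact absurd (h.trans h'.symm) huv
      · obtain ⟨rfl, rfl, rfl⟩ := (by simpa using h : n = 1 ∧ i = 0 ∧ j = 0)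
        obtain ⟨rfl, h1', h2'⟩ := h'
        dsimp only at h2'
        subst h2'
        rw [adj_zf]
        exact mt_zf (by omega)
      · obtain ⟨rfl, rfl, rfl⟩ := (by simpa using h : n = 1 ∧ i = 0 ∧ j = 0)
        obtain ⟨rfl, h1', h2'⟩ := h'
        exact ⟨fun _ => mt_zi hs h1' h2', fun _ => adj_zi⟩
      · obtain ⟨rfl, h1, h2⟩ := h
        dsimp only at h2
        subst h2
        obtain ⟨rfl, h1', h2'⟩ := h'
        refine hsym _ _ ?_
        rw [adj_hf]
        exact mt_hf h1' h2' h1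
      · obtain ⟨rfl, h1, h2⟩ := h
        dsimp only at h2
        subst h2
        obtain ⟨rfl, rfl, rfl⟩ := (by simpa using h' : n' = 1 ∧ i' = 0 ∧ j' = 0)
        refine hsym _ _ ?_
        rw [adj_zf]
        exact mt_zf (by omega)
      · obtain ⟨rfl, h1, h2⟩ := h
        dsimp only at h2
        subst h2
        obtain ⟨rfl, h1', h2'⟩ := h'
        dsimp only at h2'
        subst h2'
        rw [adj_ff]
        exact mt_ff (fun hc => huv (by rw [hc]))
      · obtain ⟨rfl, h1, h2⟩ := h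
        dsimp only at h2
        subst h2
        obtain ⟨rfl, h1', h2'⟩ := h'
        exact ⟨fun hc => absurd hc adj_fi, fun hc => absurd hc (mt_fi hs h1' h2')⟩
      · obtain ⟨rfl, h1, h2⟩ := h
        obtain ⟨rfl, h1', h2'⟩ := h'
        refine hsym _ _ ?_
        rw [adj_hi]
        exact mt_hi hs h1' h2' h1 h2
      · obtain ⟨rfl, h1, h2⟩ := h
        obtain ⟨rfl, rfl, rfl⟩ := (by simpa using h' : n' = 1 ∧ i' = 0 ∧ j' = 0)
        exact hsym _ _ ⟨fun _ => mt_zi hs h1 h2, fun _ => adj_zi⟩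
      · obtain ⟨rfl, h1, h2⟩ := h
        obtain ⟨rfl, h1', h2'⟩ := h'
        dsimp only at h2'
        subst h2'
        exact hsym _ _ ⟨fun hc => absurd hc adj_fi, fun hc => absurd hc (mt_fi hs h1 h2)⟩
      · obtain ⟨rfl, h1, h2⟩ := h
        obtain ⟨rfl, h1', h2'⟩ := h'
        rw [adj_ii]
        exact mt_ii hs h1 h2 h1' h2' huv
    intro u hu v hv huv
    refine (key u hu v hv huv).trans ?_
    unfold Mt
    constructor
    · intro h k
      dsimp only
      rw [Nat.cast_le, Nat.cast_le]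
      exact h k k.2
    · intro h k hk
      have h1 := h ⟨k, hk⟩
      dsimp only at h1
      rwa [Nat.cast_le, Nat.cast_le] at h1

end

end Pool.Agent.TH656.Bx
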