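import Mathlib

/-!
# Boxicity and treewidth
-/

set_option autoImplicit false

namespace Pool.Agent.TH656.Bx

/-- `G` has a `d`-box representation: every vertex `v` gets the box `∏ k, [l v k, r v k]` (a product
of `d` closed intervals) and two distinct vertices are adjacent iff their boxes intersect. -/
def HasBoxRep {V : Type*} (G : SimpleGraph V) (d : ℕ) : Prop :=
  ∃ l r : V → Fin d → ℝ, (∀ v, l v ≤ r v) ∧
    ∀ u v, u ≠ v → (G.Adj u v ↔ (Set.Icc (l u) (r u) ∩ Set.Icc (l v) (r v)).Nonempty)

/-- The boxicity: the least `d` for which `G` has a `d`-box representation. -/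
noncomputable def boxicity {V : Type*} (G : SimpleGraph V) : ℕ := sInf {d | HasBoxRep G d}

/-- A graph is chordal if it has no induced cycle of length at least four. -/
def Chordal {V : Type*} (H : SimpleGraph V) : Prop :=
  ∀ n : ℕ, 4 ≤ n → IsEmpty (SimpleGraph.cycleGraph n ↪g H)

/-- The treewidth: the least `ω(H) - 1` over all chordal supergraphs `H` of `G` on the same vertex
set. -/
noncomputable def treewidth {V : Type*} (G : SimpleGraph V) : ℕ :=
  sInf {k | ∃ H : SimpleGraph V, G ≤ H ∧ Chordal H ∧ H.cliqueNum - 1 = k}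

theorem box_inter {d : ℕ} {a b c e : Fin d → ℝ} (h1 : a ≤ b) (h2 : c ≤ e) :
    (Set.Icc a b ∩ Set.Icc c e).Nonempty ↔ ∀ k, a k ≤ e k ∧ c k ≤ b k := by
  constructor
  · rintro ⟨x, ⟨hx1, hx2⟩, ⟨hx3, hx4⟩⟩ k
    exact ⟨(hx1 k).trans (hx4 k), (hx3 k).trans (hx2 k)⟩
  · intro h
    refine ⟨fun k => max (a k) (c k), ⟨?_, ?_⟩, ⟨?_, ?_⟩⟩
    · intro k
      exact le_max_left _ _
    · intro k
      exact max_le (h1 k) (h k).2
    · intro k
      exact le_max_right _ _
    · intro k
      exact max_le (h k).1 (h2 k)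

theorem hasBoxRep_iff {V : Type*} {G : SimpleGraph V} {d : ℕ} :
    HasBoxRep G d ↔ ∃ l r : V → Fin d → ℝ, (∀ v k, l v k ≤ r v k) ∧
      ∀ u v, u ≠ v → (G.Adj u v ↔ ∀ k, l u k ≤ r v k ∧ l v k ≤ r u k) := by
  constructor
  · rintro ⟨l, r, h1, h2⟩
    refine ⟨l, r, fun v k => h1 v k, fun u v huv => ?_⟩
    rw [h2 u v huv, box_inter (h1 u) (h1 v)]
  · rintro ⟨l, r, h1, h2⟩
    refine ⟨l, r, fun v k => h1 v k, fun u v huv => ?_⟩
    rw [h2 u v huv, box_inter (h1 u) (h1 v)]

theorem HasBoxRep.succ {V : Type*} {G : SimpleGraph V} {d : ℕ} (h : HasBoxRep G d) :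
    HasBoxRep G (d + 1) := by
  rw [hasBoxRep_iff] at h ⊢
  obtain ⟨l, r, h1, h2⟩ := h
  refine ⟨fun v => Fin.cons 0 (l v), fun v => Fin.cons 0 (r v), ?_, ?_⟩
  · intro v k
    refine Fin.cases ?_ (fun k => ?_) k
    · simp
    · simpa using h1 v k
  · intro u v huv
    rw [h2 u v huv, Fin.forall_fin_succ]
    simp

theorem HasBoxRep.mono {V : Type*} {G : SimpleGraph V} {d e : ℕ} (h : HasBoxRep G d)
    (hde : d ≤ e) : HasBoxRep G e := by
  induction e, hde using Nat.le_induction with
  | base => exact h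
  | succ e _ ih => exact ih.succ

/-- every finite graph has a box representation -/
theorem exists_hasBoxRep {V : Type*} [Finite V] (G : SimpleGraph V) : ∃ d, HasBoxRep G d := by
  classical
  obtain ⟨n, ⟨e⟩⟩ := Finite.exists_equiv_fin V
  refine ⟨n, hasBoxRep_iff.2 ⟨fun v k => if v = e.symm k ∨ G.Adj (e.symm k) v then 0 else 1,
    fun v k => if v = e.symm k then 0 else 1, ?_, ?_⟩⟩
  · intro v k
    by_cases h1 : v = e.symm k
    · simp [h1]
    · by_cases h2 : G.Adj (e.symm k) v
      · simp [h1, h2]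
      · simp [h1, h2]
  · intro u v huv
    constructor
    · intro hadj k
      by_cases h1 : u = e.symm k
      · subst h1
        have hne : ¬ v = e.symm k := fun h => huv h.symm
        simp [hadj, hne]
      · by_cases h2 : v = e.symm k
        · subst h2
          simp [hadj.symm, h1]
        · by_cases h3 : G.Adj (e.symm k) u <;> by_cases h4 : G.Adj (e.symm k) v <;>
            simp [h1, h2, h3, h4]
    · intro h
      by_contra hna
      have h1 := (h (e u)).2
      have hne : ¬ v = u := fun h => huv h.symm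
      simp only [Equiv.symm_apply_apply, hne, hna, or_self, if_false, if_true] at h1
      norm_num at h1

/-- the definition of the boxicity says what it should -/
theorem boxicity_le_iff {V : Type*} [Finite V] {G : SimpleGraph V} {d : ℕ} :
    boxicity G ≤ d ↔ HasBoxRep G d := by
  constructor
  · intro h
    have h1 : HasBoxRep G (boxicity G) := Nat.sInf_mem (exists_hasBoxRep G)
    exact h1.mono h
  · intro h
    exact Nat.sInf_le h

theorem treewidth_le {V : Type*} {G H : SimpleGraph V} {k : ℕ} (h1 : G ≤ H) (h2 : Chordal H)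
    (h3 : H.cliqueNum ≤ k + 1) : treewidth G ≤ k := by
  have : treewidth G ≤ H.cliqueNum - 1 := Nat.sInf_le ⟨H, h1, h2, rfl⟩
  omega

end Pool.Agent.TH656.Bx
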