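import Mathlib

/-!
# Boxicity and bounded treewidth: intervals on a line

Intervals `[l q, r q]` such that consecutive ones meet and non-consecutive ones are disjoint.
-/

set_option autoImplicit false

namespace Pool.Agent.TH656.Bx

/-- two intervals are disjoint -/
def Sep (a b c d : ℝ) : Prop := b < c ∨ d < a

/-- the intervals `[l q, r q]`, `q < n`, represent a path -/
structure PathRep (n : ℕ) (l r : ℕ → ℝ) : Prop where
  le : ∀ q < n, l q ≤ r q
  meet : ∀ q, q + 1 < n → l q ≤ r (q + 1) ∧ l (q + 1) ≤ r q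
  sep : ∀ p q, p + 2 ≤ q → q < n → Sep (l p) (r p) (l q) (r q)

theorem PathRep.up {n : ℕ} {l r : ℕ → ℝ} (h : PathRep n l r) {p : ℕ}
    (h0 : r p < l (p + 2)) {q : ℕ} (hq : p + 2 ≤ q) (hn : q < n) : r p < l q := by
  induction q, hq using Nat.le_induction with
  | base => exact h0
  | succ q hpq ih =>
    have h1 := ih (by omega)
    rcases h.sep p (q + 1) (by omega) hn with h2 | h2
    · exact h2
    · have h3 := (h.meet q hn).1
      have h4 := h.le p (by omega)
      linarith

theorem PathRep.mono {n : ℕ} {l r : ℕ → ℝ} (h : PathRep n l r) {p0 : ℕ}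
    (h0 : r p0 < l (p0 + 2)) {p q : ℕ} (hp : p0 ≤ p) (hq : p + 2 ≤ q) (hn : q < n) :
    r p < l q := by
  induction p, hp using Nat.le_induction with
  | base => exact h.up h0 hq hn
  | succ p hp ih =>
    have h1 := ih (by omega)
    rcases h.sep (p + 1) q hq hn with h2 | h2
    · exact h2
    · have h3 := (h.meet p (by omega)).2
      have h4 := h.le q hn
      linarith

/-- if the last interval is to the right of the first one, then so is the interval `2` -/
theorem PathRep.start {n : ℕ} {l r : ℕ → ℝ} (h : PathRep (n + 1) l r) (hn : 2 ≤ n)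
    (h0 : r 0 < l n) {q : ℕ} (hq : 2 ≤ q) (hqn : q ≤ n) : r 0 < l q := by
  have key : ∀ d, d ≤ n - 2 → r 0 < l (n - d) := by
    intro d
    induction d with
    | zero => intro _; simpa using h0
    | succ d ih =>
      intro hd
      have h1 := ih (by omega)
      rcases h.sep 0 (n - (d + 1)) (by omega) (by omega) with h2 | h2
      · exact h2
      · have h3 := (h.meet (n - (d + 1)) (by omega)).2
        have e : n - (d + 1) + 1 = n - d := by omega
        rw [e] at h3
        have h4 := h.le 0 (by omega)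
        linarith
  have := key (n - q) (by omega)
  have e : n - (n - q) = q := by omega
  rwa [e] at this

theorem PathRep.fmono {n : ℕ} {l r : ℕ → ℝ} (h : PathRep (n + 1) l r) (hn : 2 ≤ n)
    (h0 : r 0 < l n) {p q : ℕ} (hq : p + 2 ≤ q) (hqn : q ≤ n) : r p < l q :=
  h.mono (h.start hn h0 (le_refl _) hn) (Nat.zero_le _) hq (by omega)

/-- a point between the first and the last interval is covered -/
theorem PathRep.cover {n : ℕ} {l r : ℕ → ℝ} (h : PathRep (n + 1) l r) {t : ℝ} (h1 : l 0 ≤ t)
    (h2 : t < l n) : ∃ m < n, l m ≤ t ∧ t ≤ r m := by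
  classical
  have hex : ∃ m, t < l m := ⟨n, h2⟩
  set k := Nat.find hex with hk
  have hk1 : t < l k := Nat.find_spec hex
  have hk0 : k ≠ 0 := by
    intro h0
    rw [h0] at hk1
    linarith
  obtain ⟨m, hm⟩ := Nat.exists_eq_succ_of_ne_zero hk0
  have hmin : ¬ t < l m := Nat.find_min hex (by omega)
  have hkn : k ≤ n := Nat.find_min' hex h2
  refine ⟨m, by omega, not_lt.1 hmin, ?_⟩
  have h3 := (h.meet m (by omega)).2
  rw [hm] at hk1
  simp only [Nat.succ_eq_add_one] at hk1
  linarith

/-- if all intervals of a path avoid `[c, d]`, they are on the same side -/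
theorem PathRep.side {n : ℕ} {l r : ℕ → ℝ} (h : PathRep n l r) {c d : ℝ} (hcd : c ≤ d)
    (hs : ∀ q < n, Sep (l q) (r q) c d) : (∀ q < n, r q < c) ∨ (∀ q < n, d < l q) := by
  rcases Nat.eq_zero_or_pos n with rfl | hn
  · exact Or.inl (by intro q hq; omega)
  rcases hs 0 hn with h0 | h0
  · left
    intro q
    induction q with
    | zero => intro _; exact h0
    | succ q ih =>
      intro hq
      have h1 := ih (by omega)
      rcases hs (q + 1) hq with h2 | h2
      · exact h2
      · have h3 := (h.meet q hq).2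
        linarith
  · right
    intro q
    induction q with
    | zero => intro _; exact h0
    | succ q ih =>
      intro hq
      have h1 := ih (by omega)
      rcases hs (q + 1) hq with h2 | h2
      · have h3 := (h.meet q hq).1
        linarith
      · exact h2

/-! ### The numbers of the frame -/

/-- the type `τ` of item vertices is allowed over the frame vertex `m` -/
def al (B m τ : ℕ) : Bool :=
  !decide (m % (6 * B + 1) = 0) && decide ((m % (6 * B + 1) + 6 - 2 * τ) % 6 ≤ 2)

theorem al_iff {B m τ : ℕ} : al B m τ = true ↔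
    m % (6 * B + 1) ≠ 0 ∧ (m % (6 * B + 1) + 6 - 2 * τ) % 6 ≤ 2 := by
  simp [al]

/-- The configuration on the line. -/
structure Conf (a : List ℕ) (b B : ℕ) (L R : ℕ → ℝ) (lz rz : ℝ) (l r : ℕ → ℕ → ℝ) : Prop where
  frame : PathRep (b * (6 * B + 1) + 1) L R
  item : ∀ i < a.length, PathRep (3 * a.getD i 0) (l i) (r i)
  items : ∀ i < a.length, ∀ i' < a.length, i ≠ i' → ∀ q < 3 * a.getD i 0, ∀ q' < 3 * a.getD i' 0,
    Sep (l i q) (r i q) (l i' q') (r i' q')
  avoid : ∀ i < a.length, ∀ q < 3 * a.getD i 0, ∀ m ≤ b * (6 * B + 1), al B m (q % 3) = false →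
    Sep (l i q) (r i q) (L m) (R m)
  z0 : Sep lz rz (L 0) (R 0)
  zM : Sep lz rz (L (b * (6 * B + 1))) (R (b * (6 * B + 1)))
  zm : ∀ m, 0 < m → m < b * (6 * B + 1) → lz ≤ R m ∧ L m ≤ rz
  zi : ∀ i < a.length, ∀ q < 3 * a.getD i 0, lz ≤ r i q ∧ l i q ≤ rz
  or : R 0 < L (b * (6 * B + 1))

section

variable {a : List ℕ} {b B : ℕ} {L R : ℕ → ℝ} {lz rz : ℝ} {l r : ℕ → ℕ → ℝ}

theorem Conf.hM (_h : Conf a b B L R lz rz l r) (hb : 1 ≤ b) (hB : 1 ≤ B) :
    7 ≤ b * (6 * B + 1) := by
  calc 7 = 1 * 7 := by norm_num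
    _ ≤ b * (6 * B + 1) := Nat.mul_le_mul hb (by omega)

theorem Conf.between (h : Conf a b B L R lz rz l r) (hb : 1 ≤ b) (hB : 1 ≤ B) {i : ℕ}
    (hi : i < a.length) {q : ℕ} (hq : q < 3 * a.getD i 0) :
    R 0 < l i q ∧ r i q < L (b * (6 * B + 1)) := by
  have hM := h.hM hb hB
  set M := b * (6 * B + 1) with hMdef
  have hz : R 0 < lz := by
    rcases h.z0 with h1 | h1
    · exfalso
      have h2 := (h.zm (M - 1) (by omega) (by omega)).2
      have h3 := h.frame.fmono (by omega) h.or (p := 0) (q := M - 1) (by omega) (by omega)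
      have h4 := h.frame.le 0 (by omega)
      linarith
    · exact h1
  have hz' : rz < L M := by
    rcases h.zM with h1 | h1
    · exact h1
    · exfalso
      have h2 := (h.zm 1 (by omega) (by omega)).1
      have h3 := h.frame.fmono (by omega) h.or (p := 1) (q := M) (by omega) (by omega)
      have h4 := h.frame.le M (by omega)
      linarith
  have hzi := h.zi i hi q hq
  constructor
  · rcases h.avoid i hi q hq 0 (Nat.zero_le _) (by simp [al]) with h1 | h1
    · have h4 := h.frame.le 0 (by omega)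
      linarith [hzi.1]
    · exact h1
  · rcases h.avoid i hi q hq M le_rfl (by simp [al, hMdef]) with h1 | h1
    · exact h1
    · have h4 := h.frame.le M (by omega)
      linarith [hzi.2]

/-- The point `t` is in the transition `(i, k)` and in the frame vertex `m`. -/
structure Tr (l r : ℕ → ℕ → ℝ) (L R : ℕ → ℝ) (i k m : ℕ) (t : ℝ) : Prop where
  l0 : l i (3 * k) ≤ t
  r0 : t ≤ r i (3 * k)
  l1 : l i (3 * k + 1) ≤ t
  r1 : t ≤ r i (3 * k + 1)
  Lm : L m ≤ t
  Rm : t ≤ R m

theorem Conf.exists_tr (h : Conf a b B L R lz rz l r) (hb : 1 ≤ b) (hB : 1 ≤ B) {i : ℕ}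
    (hi : i < a.length) {k : ℕ} (hk : k < a.getD i 0) :
    ∃ m t, m < b * (6 * B + 1) ∧ m % (6 * B + 1) % 6 = 2 ∧ Tr l r L R i k m t := by
  have hM := h.hM hb hB
  have hq0 : 3 * k < 3 * a.getD i 0 := by omega
  have hq1 : 3 * k + 1 < 3 * a.getD i 0 := by omega
  have hp := h.item i hi
  have hmeet := hp.meet (3 * k) hq1
  set t := max (l i (3 * k)) (l i (3 * k + 1)) with ht
  have t1 : l i (3 * k) ≤ t := le_max_left _ _
  have t2 : l i (3 * k + 1) ≤ t := le_max_right _ _
  have t3 : t ≤ r i (3 * k) := max_le (hp.le _ hq0) hmeet.2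
  have t4 : t ≤ r i (3 * k + 1) := max_le hmeet.1 (hp.le _ hq1)
  have hbt := h.between hb hB hi hq0
  have hL0 := h.frame.le 0 (by omega)
  obtain ⟨m, hm, hm1, hm2⟩ := h.frame.cover (t := t) (by linarith [hbt.1]) (by linarith [hbt.2])
  have al0 : al B m 0 = true := by
    by_contra hc
    rw [Bool.not_eq_true] at hc
    rcases h.avoid i hi (3 * k) hq0 m hm.le (by
      have : 3 * k % 3 = 0 := by omega
      rw [this]; exact hc) with h1 | h1
    · linarith
    · linarith
  have al1 : al B m 1 = true := by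
    by_contra hc
    rw [Bool.not_eq_true] at hc
    rcases h.avoid i hi (3 * k + 1) hq1 m hm.le (by
      have : (3 * k + 1) % 3 = 1 := by omega
      rw [this]; exact hc) with h1 | h1
    · linarith
    · linarith
  rw [al_iff] at al0 al1
  refine ⟨m, t, hm, ?_, ⟨t1, t3, t2, t4, hm1, hm2⟩⟩
  have h0 := al0.2
  have h1 := al1.2
  have h2 := al0.1
  generalize m % (6 * B + 1) = x at *
  omega

/-- The third vertex of a triple is to the right of the transition. -/
theorem Conf.right (h : Conf a b B L R lz rz l r) (hb : 1 ≤ b) (hB : 1 ≤ B) {i : ℕ}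
    (hi : i < a.length) {k : ℕ} (hk : k < a.getD i 0) {m : ℕ} {t : ℝ}
    (hm : m < b * (6 * B + 1)) (hm2 : m % (6 * B + 1) % 6 = 2) (htr : Tr l r L R i k m t) :
    r i (3 * k) < l i (3 * k + 2) := by
  have hM := h.hM hb hB
  have hq0 : 3 * k < 3 * a.getD i 0 := by omega
  have hq1 : 3 * k + 1 < 3 * a.getD i 0 := by omega
  have hq2 : 3 * k + 2 < 3 * a.getD i 0 := by omega
  have hp := h.item i hi
  rcases hp.sep (3 * k) (3 * k + 2) le_rfl hq2 with h1 | h1
  · exact h1
  exfalso
  have hm0 : 2 ≤ m := by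
    by_contra hc
    have : m = 0 ∨ m = 1 := by omega
    rcases this with rfl | rfl
    · simp at hm2
    · have e : 1 % (6 * B + 1) = 1 := Nat.mod_eq_of_lt (by omega)
      rw [e] at hm2
      omega
  -- the vertex of type 2 avoids the frame vertex m
  have h2 : r i (3 * k + 2) < L m := by
    rcases h.avoid i hi (3 * k + 2) hq2 m hm.le (by
      have e : (3 * k + 2) % 3 = 2 := by omega
      rw [e, ← Bool.not_eq_true, al_iff]
      generalize m % (6 * B + 1) = x at *
      omega) with h3 | h3
    · exact h3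
    · have := hp.le _ hq2
      linarith [htr.l0, htr.Rm]
  have h3 := (hp.meet (3 * k + 1) hq2).1
  -- the frame vertex m - 1
  have h4 := (h.frame.meet (m - 1) (by omega))
  have e1 : m - 1 + 1 = m := by omega
  rw [e1] at h4
  have h5 : L (m - 1) ≤ L m := by
    have h6 := (h.frame.meet (m - 2) (by omega))
    have e2 : m - 2 + 1 = m - 1 := by omega
    rw [e2] at h6
    have h7 := h.frame.fmono (by omega) h.or (p := m - 2) (q := m) (by omega) hm.le
    linarith
  rcases h.avoid i hi (3 * k + 1) hq1 (m - 1) (by omega) (by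
      have e : (3 * k + 1) % 3 = 1 := by omega
      rw [e, ← Bool.not_eq_true, al_iff]
      have e3 : m % (6 * B + 1) = (m - 1) % (6 * B + 1) + 1 := by
        have hne : m % (6 * B + 1) ≠ 0 := by omega
        have h8 := Nat.div_add_mod m (6 * B + 1)
        have h9 : (m - 1) % (6 * B + 1) = m % (6 * B + 1) - 1 := by
          have h10 : m - 1 = (m % (6 * B + 1) - 1) + (6 * B + 1) * (m / (6 * B + 1)) := by omega
          rw [h10, Nat.add_mul_mod_self_left]
          exact Nat.mod_eq_of_lt (by
            have := Nat.mod_lt m (show 0 < 6 * B + 1 by omega)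
            omega)
        omega
      generalize (m - 1) % (6 * B + 1) = x at *
      omega) with h6 | h6
  · linarith [htr.r1, htr.Lm]
  · linarith

/-- Different transitions are over different frame vertices. -/
theorem Conf.inj_aux (h : Conf a b B L R lz rz l r) (hb : 1 ≤ b) (hB : 1 ≤ B) {i i' : ℕ}
    (hi : i < a.length) (hi' : i' < a.length) (hii : i ≠ i') {k k' : ℕ} (hk : k < a.getD i 0)
    (hk' : k' < a.getD i' 0) {m : ℕ} {t t' : ℝ} (hm : m < b * (6 * B + 1))
    (hm2 : m % (6 * B + 1) % 6 = 2) (htr : Tr l r L R i k m t) (htr' : Tr l r L R i' k' m t')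
    (htt : t ≤ t') : False := by
  have hq1 : 3 * k + 1 < 3 * a.getD i 0 := by omega
  have hq2 : 3 * k + 2 < 3 * a.getD i 0 := by omega
  have hq0' : 3 * k' < 3 * a.getD i' 0 := by omega
  have hp := h.item i hi
  have hr := h.right hb hB hi hk hm hm2 htr
  have hle := hp.le _ hq2
  rcases h.items i hi i' hi' hii (3 * k + 2) hq2 (3 * k') hq0' with h1 | h1
  · rcases h.avoid i hi (3 * k + 2) hq2 m hm.le (by
      have e : (3 * k + 2) % 3 = 2 := by omega
      rw [e, ← Bool.not_eq_true, al_iff]
      generalize m % (6 * B + 1) = x at *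
      omega) with h3 | h3
    · linarith [htr.r0, htr.Lm]
    · linarith [htr'.l0, htr'.Rm]
  · have h2 := (hp.meet (3 * k + 1) hq2).2
    rcases h.items i hi i' hi' hii (3 * k + 1) hq1 (3 * k') hq0' with h3 | h3
    · linarith [htr'.l0, htr'.r0]
    · linarith [htr.l1, htr'.r0]

theorem Conf.inj (h : Conf a b B L R lz rz l r) (hb : 1 ≤ b) (hB : 1 ≤ B) {i i' : ℕ}
    (hi : i < a.length) (hi' : i' < a.length) {k k' : ℕ} (hk : k < a.getD i 0)
    (hk' : k' < a.getD i' 0) {m : ℕ} {t t' : ℝ} (hm : m < b * (6 * B + 1))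
    (hm2 : m % (6 * B + 1) % 6 = 2) (htr : Tr l r L R i k m t) (htr' : Tr l r L R i' k' m t') :
    i = i' ∧ k = k' := by
  by_cases hii : i = i'
  · subst hii
    refine ⟨rfl, ?_⟩
    have key : ∀ {k k' : ℕ} {t t' : ℝ}, k < k' → k' < a.getD i 0 → Tr l r L R i k m t →
        Tr l r L R i k' m t' → False := by
      intro k k' t t' hkk hk' htr htr'
      have hr := h.right hb hB hi (by omega : k < a.getD i 0) hm hm2 htr
      have hp := h.item i hi
      have h1 := hp.mono hr (p := 3 * k + 2) (q := 3 * k' + 1) (by omega) (by omega) (by omega)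
      have hle := hp.le (3 * k + 2) (by omega)
      rcases h.avoid i hi (3 * k + 2) (by omega) m hm.le (by
        have e : (3 * k + 2) % 3 = 2 := by omega
        rw [e, ← Bool.not_eq_true, al_iff]
        generalize m % (6 * B + 1) = x at *
        omega) with h3 | h3
      · linarith [htr.r0, htr.Lm]
      · linarith [htr'.l1, htr'.Rm]
    rcases lt_trichotomy k k' with h1 | h1 | h1
    · exact (key h1 hk' htr htr').elim
    · exact h1
    · exact (key h1 hk htr' htr).elim
  · exfalso
    rcases le_total t t' with h1 | h1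
    · exact h.inj_aux hb hB hi hi' hii hk hk' hm hm2 htr htr' h1
    · exact h.inj_aux hb hB hi' hi (Ne.symm hii) hk' hk hm hm2 htr' htr h1

/-- All transitions of an item are in the same block. -/
theorem Conf.block (h : Conf a b B L R lz rz l r) (hb : 1 ≤ b) (hB : 1 ≤ B) {i : ℕ}
    (hi : i < a.length) {k k' : ℕ} (hk : k < a.getD i 0)
    (hk' : k' < a.getD i 0) {m m' : ℕ} {t t' : ℝ} (hm' : m' < b * (6 * B + 1))
    (hm2 : m % (6 * B + 1) % 6 = 2)
    (hm2' : m' % (6 * B + 1) % 6 = 2) (htr : Tr l r L R i k m t) (htr' : Tr l r L R i k' m' t')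
    (hlt : m / (6 * B + 1) < m' / (6 * B + 1)) : False := by
  have hM := h.hM hb hB
  set s := (6 * B + 1) * (m' / (6 * B + 1)) with hs
  have e1 := Nat.div_add_mod m (6 * B + 1)
  have e2 := Nat.div_add_mod m' (6 * B + 1)
  have e3 := Nat.mod_lt m (show 0 < 6 * B + 1 by omega)
  have hsm' : s + 2 ≤ m' := by omega
  have hms : m + 2 ≤ s := by
    have h1 : (6 * B + 1) * (m / (6 * B + 1) + 1) ≤ s := Nat.mul_le_mul_left _ hlt
    have h2 : (6 * B + 1) * (m / (6 * B + 1) + 1) = (6 * B + 1) * (m / (6 * B + 1)) + (6 * B + 1) := by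
      ring
    have h3 : m % (6 * B + 1) + 2 ≤ 6 * B + 1 := by
      generalize m % (6 * B + 1) = x at *
      omega
    omega
  have hsM : s ≤ b * (6 * B + 1) := by omega
  have hside := (h.item i hi).side (h.frame.le s (by omega)) (fun q hq =>
    h.avoid i hi q hq s hsM (by
      rw [← Bool.not_eq_true, al_iff]
      intro hc
      exact hc.1 (by rw [hs]; exact Nat.mul_mod_right _ _)))
  have h1 := h.frame.fmono (by omega) h.or hms hsM
  have h2 := h.frame.fmono (by omega) h.or hsm' hm'.le
  have h0 := h.frame.le s (by omega)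
  rcases hside with h3 | h3
  · have := h3 (3 * k') (by omega)
    linarith [htr'.r0, htr'.Lm]
  · have := h3 (3 * k) (by omega)
    linarith [htr.l0, htr.Rm]

/-- **Packing from a configuration on the line.** -/
theorem Conf.pack (h : Conf a b B L R lz rz l r) (hb : 1 ≤ b) (hB : 1 ≤ B) :
    ∃ f : ℕ → ℕ, (∀ i < a.length, f i < b) ∧
      ∀ j < b, ∑ i ∈ (Finset.range a.length).filter (fun i => f i = j), a.getD i 0 ≤ B := by
  classical
  have hex : ∀ i k, ∃ m, i < a.length → k < a.getD i 0 →
      m < b * (6 * B + 1) ∧ m % (6 * B + 1) % 6 = 2 ∧ ∃ t, Tr l r L R i k m t := by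
    intro i k
    by_cases hi : i < a.length
    · by_cases hk : k < a.getD i 0
      · obtain ⟨m, t, h1, h2, h3⟩ := h.exists_tr hb hB hi hk
        exact ⟨m, fun _ _ => ⟨h1, h2, t, h3⟩⟩
      · exact ⟨0, fun _ hk' => absurd hk' hk⟩
    · exact ⟨0, fun hi' _ => absurd hi' hi⟩
  choose g hg using hex
  refine ⟨fun i => if 0 < a.getD i 0 then g i 0 / (6 * B + 1) else 0, ?_, ?_⟩
  · intro i hi
    dsimp only
    split_ifs with h0
    · have h1 := (hg i 0 hi h0).1
      exact Nat.div_lt_of_lt_mul (by rw [mul_comm]; exact h1)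
    · omega
  · intro j _
    have e : ∑ i ∈ (Finset.range a.length).filter
        (fun i => (if 0 < a.getD i 0 then g i 0 / (6 * B + 1) else 0) = j), a.getD i 0 =
        (((Finset.range a.length).filter
        (fun i => (if 0 < a.getD i 0 then g i 0 / (6 * B + 1) else 0) = j)).sigma
          (fun i => Finset.range (a.getD i 0))).card := by
      rw [Finset.card_sigma]
      simp
    rw [e]
    have hblk : ∀ i k, i < a.length → k < a.getD i 0 →
        (if 0 < a.getD i 0 then g i 0 / (6 * B + 1) else 0) = j → g i k / (6 * B + 1) = j := by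
      intro i k hi hk hj
      have h0 : 0 < a.getD i 0 := by omega
      rw [if_pos h0] at hj
      obtain ⟨m1, m2, t, ht⟩ := hg i 0 hi h0
      obtain ⟨m1', m2', t', ht'⟩ := hg i k hi hk
      rw [← hj]
      by_contra hne
      rcases lt_or_gt_of_ne hne with h1 | h1
      · exact h.block hb hB hi hk h0 m1 m2' m2 ht' ht h1
      · exact h.block hb hB hi h0 hk m1' m2 m2' ht ht' h1
    have hmod : ∀ i k, i < a.length → k < a.getD i 0 →
        g i k % (6 * B + 1) = 6 * ((g i k % (6 * B + 1) - 2) / 6) + 2 ∧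
        (g i k % (6 * B + 1) - 2) / 6 < B := by
      intro i k hi hk
      have h2 := (hg i k hi hk).2.1
      have h3 := Nat.mod_lt (g i k) (show 0 < 6 * B + 1 by omega)
      generalize g i k % (6 * B + 1) = x at *
      omega
    calc _ ≤ (Finset.range B).card := by
          refine Finset.card_le_card_of_injOn
            (fun p => (g p.1 p.2 % (6 * B + 1) - 2) / 6) ?_ ?_
          · rintro ⟨i, k⟩ hp
            simp only [Finset.coe_sigma, Finset.coe_filter, Finset.mem_range, Set.mem_sigma_iff,
              Set.mem_ofPred_eq, Finset.coe_range, Set.mem_Iio] at hp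
            simp only [Finset.coe_range, Set.mem_Iio]
            exact (hmod i k hp.1.1 hp.2).2
          · rintro ⟨i, k⟩ hp ⟨i', k'⟩ hp' heq
            simp only [Finset.coe_sigma, Finset.coe_filter, Finset.mem_range, Set.mem_sigma_iff,
              Set.mem_ofPred_eq, Finset.coe_range, Set.mem_Iio] at hp hp' heq
            have e1 := (hmod i k hp.1.1 hp.2).1
            have e2 := (hmod i' k' hp'.1.1 hp'.2).1
            have e3 := hblk i k hp.1.1 hp.2 hp.1.2
            have e4 := hblk i' k' hp'.1.1 hp'.2 hp'.1.2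
            have e5 : g i k = g i' k' := by
              rw [← Nat.div_add_mod (g i k) (6 * B + 1), ← Nat.div_add_mod (g i' k') (6 * B + 1),
                e3, e4, e1, e2, heq]
            obtain ⟨m1, m2, t, ht⟩ := hg i k hp.1.1 hp.2
            obtain ⟨m1', m2', t', ht'⟩ := hg i' k' hp'.1.1 hp'.2
            rw [← e5] at ht'
            obtain ⟨h1, h2⟩ := h.inj hb hB hp.1.1 hp'.1.1 hp.2 hp'.2 m1 m2 ht ht'
            subst h1
            subst h2
            rfl
      _ = B := by simp

end

end Pool.Agent.TH656.Bx
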