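import Pool.Agent.TH656.Gr
import Pool.Agent.TH656.Bx.Defs
import Pool.Agent.TH656.Bx.Line

/-!
# The graph of a bin packing instance
-/

set_option autoImplicit false

namespace Pool.Agent.TH656.Bx

/-- The adjacency (in one direction). Kinds of vertices: `(0, τ, j)` hubs, `(1, 0, 0)` the vertex
`z`, `(2, m, 0)` the frame, `(3, i, q)` the items. -/
def ad (b B : ℕ) (u v : Vt) : Bool :=
  (decide (u.1 = 0) && decide (v.1 = 0) && !decide (u.2.1 = v.2.1)) ||
  (decide (u.1 = 0) && decide (v.1 = 1)) ||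
  (decide (u.1 = 0) && decide (v.1 = 2) && !(decide (u.2.2 = 2) && al B v.2.1 u.2.1)) ||
  (decide (u.1 = 0) && decide (v.1 = 3) && !(decide (u.2.2 = 0) && decide (v.2.2 % 3 = u.2.1))) ||
  (decide (u.1 = 1) && decide (v.1 = 2) && decide (0 < v.2.1) &&
    decide (v.2.1 < b * (6 * B + 1))) ||
  (decide (u.1 = 1) && decide (v.1 = 3)) ||
  (decide (u.1 = 2) && decide (v.1 = 2) && decide (v.2.1 = u.2.1 + 1)) ||
  (decide (u.1 = 3) && decide (v.1 = 3) && decide (v.2.1 = u.2.1) && decide (v.2.2 = u.2.2 + 1))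

/-- The hubs and `z`. -/
def hubs : List Vt :=
  [(0, 0, 0), (0, 0, 1), (0, 0, 2), (0, 1, 0), (0, 1, 1), (0, 1, 2), (0, 2, 0), (0, 2, 1), (0, 2, 2),
    (1, 0, 0)]

/-- The list of all vertices. -/
def vl (a : List ℕ) (b B : ℕ) : List Vt :=
  hubs ++ (List.range (b * (6 * B + 1) + 1)).map (fun m => ((2, m, 0) : Vt)) ++
    (List.range a.length).flatMap
      (fun i => (List.range (3 * a.getD i 0)).map (fun q => ((3, i, q) : Vt)))

theorem mem_vl {a : List ℕ} {b B : ℕ} {v : Vt} : v ∈ vl a b B ↔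
    (v.1 = 0 ∧ v.2.1 < 3 ∧ v.2.2 < 3) ∨ v = (1, 0, 0) ∨
    (v.1 = 2 ∧ v.2.1 ≤ b * (6 * B + 1) ∧ v.2.2 = 0) ∨
    (v.1 = 3 ∧ v.2.1 < a.length ∧ v.2.2 < 3 * a.getD v.2.1 0) := by
  obtain ⟨k, i, j⟩ := v
  have h0 : ((k, i, j) : Vt) ∈ hubs ↔ (k = 0 ∧ i < 3 ∧ j < 3) ∨ (k, i, j) = ((1, 0, 0) : Vt) := by
    simp only [hubs, List.mem_cons, List.not_mem_nil, or_false, Prod.mk.injEq]
    omega
  rw [vl, List.mem_append, List.mem_append, h0]
  simp only [List.mem_map, List.mem_range, List.mem_flatMap, Prod.mk.injEq]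
  constructor
  · rintro ((h | h) | h)
    · exact h.elim Or.inl (fun h => Or.inr (Or.inl h))
    · obtain ⟨m, h1, h2, h3, h4⟩ := h
      right; right; left
      exact ⟨h2.symm, by omega, h4.symm⟩
    · obtain ⟨i', h1, q, h2, h3, h4, h5⟩ := h
      subst h4; subst h5
      right; right; right
      exact ⟨h3.symm, h1, h2⟩
  · rintro (h | h | h | h)
    · exact Or.inl (Or.inl (Or.inl h))
    · exact Or.inl (Or.inl (Or.inr h))
    · exact Or.inl (Or.inr ⟨i, by omega, h.1.symm, rfl, h.2.2.symm⟩)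
    · exact Or.inr ⟨i, h.2.1, j, h.2.2, h.1.symm, rfl, rfl⟩

theorem nodup_vl (a : List ℕ) (b B : ℕ) : (vl a b B).Nodup := by
  rw [vl, List.nodup_append, List.nodup_append]
  refine ⟨⟨by decide, ?_, ?_⟩, ?_, ?_⟩
  · exact List.Nodup.map (fun x y h => by simpa using h) List.nodup_range
  · intro x hx y hy hxy
    subst hxy
    simp only [List.mem_map, List.mem_range] at hy
    obtain ⟨m, _, rfl⟩ := hy
    simp [hubs] at hx
  · rw [List.nodup_flatMap]
    constructor
    · intro i _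
      exact List.Nodup.map (fun x y h => by simpa using h) List.nodup_range
    · refine List.Nodup.pairwise_of_forall_ne List.nodup_range ?_
      intro i _ i' _ hii
      rw [Function.onFun, List.disjoint_left]
      intro x hx hx'
      simp only [List.mem_map] at hx hx'
      obtain ⟨q, _, rfl⟩ := hx
      obtain ⟨q', _, h⟩ := hx'
      simp only [Prod.mk.injEq] at h
      exact hii h.2.1.symm
  · intro x hx y hy hxy
    subst hxy
    simp only [List.mem_flatMap, List.mem_map, List.mem_range] at hy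
    obtain ⟨i, _, q, _, rfl⟩ := hy
    simp [hubs] at hx

/-- The graph of the bin packing instance. -/
def gr (a : List ℕ) (b B : ℕ) : Pool.Agent.H692R2.FinGraph := lgraph (vl a b B) (ad b B)

/-- Adjacency in any direction. -/
def Adj (b B : ℕ) (u v : Vt) : Prop := ad b B u v = true ∨ ad b B v u = true

theorem Adj.symm {b B : ℕ} {u v : Vt} (h : Adj b B u v) : Adj b B v u := Or.symm h

theorem lrep_iff {l : List Vt} (hl : l.Nodup) {adj : Vt → Vt → Bool} {d : ℕ} :
    HasBoxRep (lgraph l adj).graph d ↔ ∃ L R : Vt → Fin d → ℝ, (∀ v ∈ l, ∀ k, L v k ≤ R v k) ∧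
      ∀ u ∈ l, ∀ v ∈ l, u ≠ v → ((adj u v = true ∨ adj v u = true) ↔
        ∀ k, L u k ≤ R v k ∧ L v k ≤ R u k) := by
  rw [hasBoxRep_iff]
  constructor
  · rintro ⟨L, R, h1, h2⟩
    have hlt : ∀ v ∈ l, l.idxOf v < l.length := fun v hv => List.idxOf_lt_length_iff.2 hv
    refine ⟨fun v => if h : l.idxOf v < l.length then L ⟨l.idxOf v, h⟩ else 0,
      fun v => if h : l.idxOf v < l.length then R ⟨l.idxOf v, h⟩ else 0, ?_, ?_⟩
    · intro v hv k
      simp only [hlt v hv, dif_pos]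
      exact h1 _ k
    · intro u hu v hv huv
      simp only [hlt v hv, hlt u hu, dif_pos]
      have hne : (⟨l.idxOf u, hlt u hu⟩ : Fin l.length) ≠ ⟨l.idxOf v, hlt v hv⟩ := by
        intro h
        have h3 : l.idxOf u = l.idxOf v := congrArg Fin.val h
        exact huv ((List.idxOf_inj hu).1 h3)
      have h3 := h2 _ _ hne
      refine Iff.trans ?_ h3
      have eu : l.get ⟨l.idxOf u, hlt u hu⟩ = u := List.idxOf_get _
      have ev : l.get ⟨l.idxOf v, hlt v hv⟩ = v := List.idxOf_get _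
      refine Iff.trans ?_ (lgraph_adj (l := l) (ad := adj) ⟨l.idxOf u, hlt u hu⟩
        ⟨l.idxOf v, hlt v hv⟩).symm
      rw [eu, ev]
      exact ⟨fun h => ⟨hne, h⟩, fun h => h.2⟩
  · rintro ⟨L, R, h1, h2⟩
    refine ⟨fun i => L (l.get i), fun i => R (l.get i), ?_, ?_⟩
    · intro i k
      exact h1 _ (List.get_mem _ _) k
    · intro i j hij
      have hne : l.get i ≠ l.get j := fun h => hij ((List.Nodup.get_inj_iff hl).1 h)
      refine Iff.trans (lgraph_adj (l := l) (ad := adj) i j) ?_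
      rw [← h2 _ (List.get_mem _ _) _ (List.get_mem _ _) hne]
      exact ⟨fun h => h.2, fun h => ⟨hij, h⟩⟩

end Pool.Agent.TH656.Bx
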