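import Pool.Agent.TH656.Bx.Complete
import Pool.Agent.TH656.Bx.Tw
import Pool.Agent.H43R3.SN.SRC
import Pool.Agent.H243R3.SN.Poly

/-!
# The reduction from exact cover
-/

set_option autoImplicit false

namespace Pool.Agent.TH656.Bx

open Pool.Agent.NPC Pool.Agent.NPC.H632 Pool.Agent.H557R2.Tri Pool.Agent.H692R2
open Pool.Agent.H43R3.SN Pool.Agent.NPC.SNP

section Gen

variable {α : Type} [TEnc α]

theorem poly_ad {b B : α → ℕ} (hb : Poly b) (hB : Poly B) :
    Poly (fun p : α × Vt × Vt => ad (b p.1) (B p.1) p.2.1 p.2.2) := by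
  unfold ad al
  have h1 : Poly (fun p : α × Vt × Vt => b p.1) := hb.comp (NPC.Poly.fst NPC.Poly.id)
  have h2 : Poly (fun p : α × Vt × Vt => B p.1) := hB.comp (NPC.Poly.fst NPC.Poly.id)
  fun_prop

theorem poly_vl {a : α → List ℕ} {b B M : α → ℕ} (ha : Poly a) (hb : UPoly b) (hB : UPoly B)
    (hM : UPoly M) (h : ∀ x i, (a x).getD i 0 ≤ M x) :
    Poly (fun x => vl (a x) (b x) (B x)) := by
  unfold vl
  have r1 : Poly (fun x => List.range (b x * (6 * B x + 1) + 1)) :=
    (UPoly.add (UPoly.mul hb (UPoly.add (UPoly.mul (UPoly.const 6) hB) (UPoly.const 1)))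
      (UPoly.const 1)).range
  have r3 : Poly (fun x => List.range (a x).length) := (UPoly.length ha).range
  have r4 : Poly (fun p : α × ℕ => List.range (3 * (a p.1).getD p.2 0)) := by
    refine UPoly.range ?_
    refine UPoly.mul (UPoly.const 3) ?_
    refine UPoly.of_le (n := fun p : α × ℕ => M p.1) ?_ (hM.comp (NPC.Poly.fst NPC.Poly.id))
      fun p => h p.1 p.2
    exact NPC.Poly.getD (ha.comp (NPC.Poly.fst NPC.Poly.id)) (NPC.Poly.snd NPC.Poly.id)
      (NPC.Poly.const 0)
  have m1 : Poly (fun x => (List.range (b x * (6 * B x + 1) + 1)).map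
      (fun i => ((2, i, 0) : Vt))) :=
    NPC.Poly.map (F := fun _ i => ((2, i, 0) : Vt)) r1 (by fun_prop)
  have m3 : Poly (fun x => (List.range (a x).length).flatMap (fun i =>
      (List.range (3 * (a x).getD i 0)).map (fun q => ((3, i, q) : Vt)))) := by
    refine NPC.Poly.flatMap (F := fun x i =>
      (List.range (3 * (a x).getD i 0)).map (fun q => ((3, i, q) : Vt))) r3 ?_
    exact NPC.Poly.map (F := fun (p : α × ℕ) q => ((3, p.2, q) : Vt)) r4 (by fun_prop)
  exact NPC.Poly.append (NPC.Poly.append (NPC.Poly.const hubs) m1) m3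

theorem poly_gr {a : α → List ℕ} {b B M : α → ℕ} (ha : Poly a) (hb : UPoly b) (hB : UPoly B)
    (hM : UPoly M) (h : ∀ x i, (a x).getD i 0 ≤ M x) :
    Poly (fun x => gr (a x) (b x) (B x)) := by
  unfold gr
  exact poly_lgraph (poly_vl ha hb hB hM h) (poly_ad hb.toPoly hB.toPoly)

end Gen

/-- The graph of an instance of exact cover by 3-sets. -/
noncomputable def red (I : List (ℕ × ℕ × ℕ) × ℕ) : FinGraph :=
  if tst I then gr (sizes (clip I)) (bb (clip I)) (BB (clip I)) else gr [2] 1 1

theorem poly_red : Poly red := by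
  unfold red
  refine NPC.Poly.ite (p := tst) poly_tst ?_ (NPC.Poly.const _)
  exact poly_gr (poly_sizes.comp poly_clip) ubb uBB (UPoly.mul ubb uBB) fun I i =>
    (getD_le_sum _ i).trans (clip_tst I).1.le

theorem red_tw (I : List (ℕ × ℕ × ℕ) × ℕ) : treewidth (red I).graph ≤ 11 := by
  by_cases h : tst I
  · have hr : red I = gr (sizes (clip I)) (bb (clip I)) (BB (clip I)) := by
      unfold red
      rw [if_pos h]
    rw [hr]
    exact tw_gr
  · have hr : red I = gr [2] 1 1 := by
      unfold red
      rw [if_neg h]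
    rw [hr]
    exact tw_gr

theorem red_correct (I : List (ℕ × ℕ × ℕ) × ℕ) (hI : Pr I.1 I.2) :
    X3C I ↔ boxicity (red I).graph ≤ 4 := by
  have hbd : Pool.Agent.NPC.SNP.bd I = I := by
    unfold Pool.Agent.NPC.SNP.bd
    rw [Nat.min_eq_left (q_le hI)]
  rw [boxicity_le_iff, Pool.Agent.H43R3.SN.SRC.taskSRC I hI]
  have hb : 1 ≤ bb I := by
    have := hI.ne
    have h2 : 0 < I.1.length := List.length_pos_iff.2 this
    unfold bb
    omega
  have hB : 1 ≤ BB I := by
    unfold BB MM
    omega
  by_cases h : tst I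
  · have hc : clip I = I := by
      unfold clip
      rw [if_pos h, hbd]
    have hr : red I = gr (sizes I) (bb I) (BB I) := by
      unfold red
      rw [if_pos h, hc]
    rw [hr]
    have hsum : (sizes I).sum = bb I * BB I := by
      unfold tst at h
      rwa [hbd] at h
    constructor
    · rintro ⟨_, h1⟩
      exact complete hb hB h1
    · intro h1
      exact ⟨hsum, sound hb hB h1⟩
  · have hr : red I = gr [2] 1 1 := by
      unfold red
      rw [if_neg h]
    rw [hr]
    constructor
    · rintro ⟨h1, _⟩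
      exfalso
      apply h
      unfold tst
      rwa [hbd]
    · intro h1
      exfalso
      obtain ⟨f, hf1, hf2⟩ := sound le_rfl le_rfl h1
      have h3 := hf1 0 (by simp)
      have h4 := hf2 0 (by norm_num)
      have h5 : f 0 = 0 := by omega
      simp [Finset.sum_filter, h5] at h4

/-- Exact cover reduces to boxicity at most four, for graphs of treewidth at most eleven. -/
theorem hard : HardPr (fun G : FinGraph => treewidth G.graph ≤ 11)
    (fun G => boxicity G.graph ≤ 4) :=
  hardPr_X3Cr.trans poly_red (fun I _ => red_tw I) red_correct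

end Pool.Agent.TH656.Bx
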