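import Pool.Agent.TH656.Bx.Constr

/-!
# A box representation in dimension four gives a packing
-/

set_option autoImplicit false

namespace Pool.Agent.TH656.Bx

section

variable {a : List ℕ} {b B : ℕ}

theorem adj_hh {τ j σ j' : ℕ} : Adj b B (0, τ, j) (0, σ, j') ↔ τ ≠ σ := by
  simp only [Adj, ad]
  simp
  exact fun h => Ne.symm h

theorem adj_hz {τ j : ℕ} : Adj b B (0, τ, j) (1, 0, 0) := by
  simp [Adj, ad]

theorem adj_hf {τ j m : ℕ} : Adj b B (0, τ, j) (2, m, 0) ↔ ¬ (j = 2 ∧ al B m τ = true) := by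
  simp only [Adj, ad]
  cases al B m τ <;> simp

theorem adj_hi {τ j i q : ℕ} : Adj b B (0, τ, j) (3, i, q) ↔ ¬ (j = 0 ∧ q % 3 = τ) := by
  simp only [Adj, ad]
  simp [-not_and]
  tauto

theorem adj_zf {m : ℕ} : Adj b B (1, 0, 0) (2, m, 0) ↔ 0 < m ∧ m < b * (6 * B + 1) := by
  simp only [Adj, ad]
  simp

theorem adj_zi {i q : ℕ} : Adj b B (1, 0, 0) (3, i, q) := by
  simp [Adj, ad]

theorem adj_ff {m m' : ℕ} : Adj b B (2, m, 0) (2, m', 0) ↔ m' = m + 1 ∨ m = m' + 1 := by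
  simp only [Adj, ad]
  simp

theorem adj_fi {m i q : ℕ} : ¬ Adj b B (2, m, 0) (3, i, q) := by
  simp only [Adj, ad]
  simp

theorem adj_ii {i q i' q' : ℕ} : Adj b B (3, i, q) (3, i', q') ↔
    i = i' ∧ (q' = q + 1 ∨ q = q' + 1) := by
  simp only [Adj, ad]
  simp
  omega

theorem Adj.ne {u v : Vt} (h : Adj b B u v) : u ≠ v := by
  rintro rfl
  obtain ⟨k, i, j⟩ := u
  simp only [Adj, ad] at h
  simp at h
  omega

theorem mem_hub {τ j : ℕ} (hτ : τ < 3) (hj : j < 3) : ((0, τ, j) : Vt) ∈ vl a b B :=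
  mem_vl.2 (Or.inl ⟨rfl, hτ, hj⟩)

theorem mem_z : ((1, 0, 0) : Vt) ∈ vl a b B := mem_vl.2 (Or.inr (Or.inl rfl))

theorem mem_frame {m : ℕ} (hm : m ≤ b * (6 * B + 1)) : ((2, m, 0) : Vt) ∈ vl a b B :=
  mem_vl.2 (Or.inr (Or.inr (Or.inl ⟨rfl, hm, rfl⟩)))

theorem mem_item {i q : ℕ} (hi : i < a.length) (hq : q < 3 * a.getD i 0) :
    ((3, i, q) : Vt) ∈ vl a b B :=
  mem_vl.2 (Or.inr (Or.inr (Or.inr ⟨rfl, hi, hq⟩)))

/-- two disjoint pairs of intervals do not span a four-cycle -/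
theorem no_c4 {lu ru lu' ru' lv rv lv' rv' : ℝ} (h1 : Sep lu ru lu' ru') (h2 : Sep lv rv lv' rv')
    (m1 : lu ≤ rv ∧ lv ≤ ru) (m2 : lu ≤ rv' ∧ lv' ≤ ru) (m3 : lu' ≤ rv ∧ lv ≤ ru')
    (m4 : lu' ≤ rv' ∧ lv' ≤ ru') : False := by
  rcases h1 with h1 | h1 <;> rcases h2 with h2 | h2
  · linarith [m2.2, m3.1]
  · linarith [m1.2, m4.1]
  · linarith [m4.2, m1.1]
  · linarith [m3.2, m2.1]

/-- A box representation in dimension four. -/
structure Rep (a : List ℕ) (b B : ℕ) (L R : Vt → Fin 4 → ℝ) : Prop where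
  le : ∀ v ∈ vl a b B, ∀ k, L v k ≤ R v k
  adj : ∀ u ∈ vl a b B, ∀ v ∈ vl a b B, u ≠ v →
    (Adj b B u v ↔ ∀ k, L u k ≤ R v k ∧ L v k ≤ R u k)

/-- separated in dimension `k` -/
def S (L R : Vt → Fin 4 → ℝ) (k : Fin 4) (u v : Vt) : Prop := Sep (L u k) (R u k) (L v k) (R v k)

variable {L R : Vt → Fin 4 → ℝ}

theorem Rep.meet (h : Rep a b B L R) {u v : Vt} (hu : u ∈ vl a b B) (hv : v ∈ vl a b B)
    (hadj : Adj b B u v) (k : Fin 4) : L u k ≤ R v k ∧ L v k ≤ R u k :=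
  (h.adj u hu v hv hadj.ne).1 hadj k

theorem Rep.exists_sep (h : Rep a b B L R) {u v : Vt} (hu : u ∈ vl a b B) (hv : v ∈ vl a b B)
    (huv : u ≠ v) (hadj : ¬ Adj b B u v) : ∃ k, S L R k u v := by
  rw [h.adj u hu v hv huv] at hadj
  push Not at hadj
  obtain ⟨k, hk⟩ := hadj
  refine ⟨k, ?_⟩
  unfold S Sep
  by_cases h1 : L u k ≤ R v k
  · exact Or.inl (hk h1)
  · exact Or.inr (not_le.1 h1)

theorem Rep.cross (h : Rep a b B L R) {u u' v v' : Vt} (hu : u ∈ vl a b B) (hu' : u' ∈ vl a b B)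
    (hv : v ∈ vl a b B) (hv' : v' ∈ vl a b B) {k k' : Fin 4} (h1 : S L R k u u')
    (h2 : S L R k' v v') (m1 : Adj b B u v) (m2 : Adj b B u v') (m3 : Adj b B u' v)
    (m4 : Adj b B u' v') : k ≠ k' := by
  rintro rfl
  exact no_c4 h1 h2 (h.meet hu hv m1 k) (h.meet hu hv' m2 k) (h.meet hu' hv m3 k)
    (h.meet hu' hv' m4 k)

theorem fin4 : ∀ k0 k1 k2 kx k : Fin 4, k0 ≠ k1 → k0 ≠ k2 → k1 ≠ k2 → k0 ≠ kx → k1 ≠ kx →
    k2 ≠ kx → k = kx ∨ k = k0 ∨ k = k1 ∨ k = k2 := by decide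

theorem al_zero (τ : ℕ) : al B 0 τ = false := by simp [al]

theorem al_M (τ : ℕ) : al B (b * (6 * B + 1)) τ = false := by simp [al]

/-- The dimension of the line. -/
theorem Rep.exists_kx (h : Rep a b B L R) (hb : 1 ≤ b) (hB : 1 ≤ B) : ∃ kx : Fin 4,
    S L R kx (2, 0, 0) (2, b * (6 * B + 1), 0) ∧
    ∀ u ∈ vl a b B, ∀ v ∈ vl a b B, u ≠ v → ¬ Adj b B u v →
      (∀ τ < 3, ∃ j j', j < 3 ∧ j' < 3 ∧ j ≠ j' ∧ Adj b B (0, τ, j) u ∧ Adj b B (0, τ, j') u ∧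
        Adj b B (0, τ, j) v ∧ Adj b B (0, τ, j') v) → S L R kx u v := by
  have hM : 7 ≤ b * (6 * B + 1) := by
    calc 7 = 1 * 7 := by norm_num
      _ ≤ b * (6 * B + 1) := Nat.mul_le_mul hb (by omega)
  have hf0 : ((2, 0, 0) : Vt) ∈ vl a b B := mem_frame (Nat.zero_le _)
  have hfM : ((2, b * (6 * B + 1), 0) : Vt) ∈ vl a b B := mem_frame le_rfl
  obtain ⟨kx, hkx⟩ := h.exists_sep hf0 hfM (by
    intro hc
    simp only [Prod.mk.injEq] at hc
    omega) (by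
    rw [adj_ff]
    omega)
  have hk : ∀ τ, ∃ k, τ < 3 → S L R k (0, τ, 0) (0, τ, 1) := by
    intro τ
    by_cases hτ : τ < 3
    · obtain ⟨k, hk⟩ := h.exists_sep (mem_hub hτ (by norm_num : 0 < 3))
        (mem_hub hτ (by norm_num : 1 < 3)) (by simp) (by rw [adj_hh]; simp)
      exact ⟨k, fun _ => hk⟩
    · exact ⟨0, fun hc => absurd hc hτ⟩
  choose kk hkk using hk
  have hd : ∀ σ < 3, ∀ τ < 3, σ ≠ τ → ∀ j < 3, ∀ j' < 3, ∀ k, S L R k (0, σ, j) (0, σ, j') →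
      k ≠ kk τ := by
    intro σ hσ τ hτ hne j hj j' hj' k hk
    exact h.cross (mem_hub hσ hj) (mem_hub hσ hj') (mem_hub hτ (by norm_num))
      (mem_hub hτ (by norm_num)) hk (hkk τ hτ) (adj_hh.2 hne) (adj_hh.2 hne) (adj_hh.2 hne)
      (adj_hh.2 hne)
  have hdx : ∀ τ < 3, ∀ j < 3, ∀ j' < 3, ∀ k, S L R k (0, τ, j) (0, τ, j') → k ≠ kx := by
    intro τ hτ j hj j' hj' k hk
    exact h.cross (mem_hub hτ hj) (mem_hub hτ hj') hf0 hfM hk hkx
      (adj_hf.2 (by rw [al_zero]; simp)) (adj_hf.2 (by rw [al_M]; simp))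
      (adj_hf.2 (by rw [al_zero]; simp)) (adj_hf.2 (by rw [al_M]; simp))
  have h01 : kk 0 ≠ kk 1 := hd 0 (by norm_num) 1 (by norm_num) (by norm_num) 0 (by norm_num) 1
    (by norm_num) _ (hkk 0 (by norm_num))
  have h02 : kk 0 ≠ kk 2 := hd 0 (by norm_num) 2 (by norm_num) (by norm_num) 0 (by norm_num) 1
    (by norm_num) _ (hkk 0 (by norm_num))
  have h12 : kk 1 ≠ kk 2 := hd 1 (by norm_num) 2 (by norm_num) (by norm_num) 0 (by norm_num) 1
    (by norm_num) _ (hkk 1 (by norm_num))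
  have h0x : ∀ τ < 3, kk τ ≠ kx := fun τ hτ => hdx τ hτ 0 (by norm_num) 1
    (by norm_num) _ (hkk τ hτ)
  have hall : ∀ k, k = kx ∨ ∃ τ < 3, k = kk τ := by
    intro k
    rcases fin4 (kk 0) (kk 1) (kk 2) kx k h01 h02 h12 (h0x 0 (by norm_num)) (h0x 1 (by norm_num))
      (h0x 2 (by norm_num)) with h1 | h1 | h1 | h1
    · exact Or.inl h1
    · exact Or.inr ⟨0, by norm_num, h1⟩
    · exact Or.inr ⟨1, by norm_num, h1⟩
    · exact Or.inr ⟨2, by norm_num, h1⟩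
  have hfull : ∀ τ < 3, ∀ j < 3, ∀ j' < 3, j ≠ j' → S L R (kk τ) (0, τ, j) (0, τ, j') := by
    intro τ hτ j hj j' hj' hne
    obtain ⟨k, hk⟩ := h.exists_sep (mem_hub hτ hj) (mem_hub hτ hj') (by
      intro hc
      simp only [Prod.mk.injEq] at hc
      exact hne hc.2.2) (by rw [adj_hh]; simp)
    rcases hall k with h1 | ⟨σ, hσ, h1⟩
    · exact absurd h1 (hdx τ hτ j hj j' hj' k hk)
    · by_cases hστ : τ = σ
      · subst hστ
        rw [← h1]
        exact hk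
      · exact absurd h1 (hd τ hτ σ hσ hστ j hj j' hj' k hk)
  refine ⟨kx, hkx, ?_⟩
  intro u hu v hv huv hna hcom
  obtain ⟨k, hk⟩ := h.exists_sep hu hv huv hna
  rcases hall k with h1 | ⟨τ, hτ, h1⟩
  · rw [← h1]
    exact hk
  · exfalso
    obtain ⟨j, j', hj, hj', hjj, c1, c2, c3, c4⟩ := hcom τ hτ
    exact h.cross (mem_hub hτ hj) (mem_hub hτ hj') hu hv (hfull τ hτ j hj j' hj' hjj) hk
      c1 c3 c2 c4 h1.symm

theorem Rep.neg (h : Rep a b B L R) : Rep a b B (fun v k => - R v k) (fun v k => - L v k) := by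
  refine ⟨fun v hv k => neg_le_neg (h.le v hv k), fun u hu v hv huv => ?_⟩
  rw [h.adj u hu v hv huv]
  exact ⟨fun h1 k => ⟨neg_le_neg (h1 k).2, neg_le_neg (h1 k).1⟩,
    fun h1 k => ⟨neg_le_neg_iff.1 (h1 k).2, neg_le_neg_iff.1 (h1 k).1⟩⟩

theorem Rep.conf (h : Rep a b B L R) (hb : 1 ≤ b) (hB : 1 ≤ B) :
    ∃ (L R : ℕ → ℝ) (lz rz : ℝ) (l r : ℕ → ℕ → ℝ), Conf a b B L R lz rz l r := by
  have hM : 7 ≤ b * (6 * B + 1) := by
    calc 7 = 1 * 7 := by norm_num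
      _ ≤ b * (6 * B + 1) := Nat.mul_le_mul hb (by omega)
  -- the orientation
  suffices key : ∀ (L R : Vt → Fin 4 → ℝ) (h : Rep a b B L R) (kx : Fin 4),
      R (2, 0, 0) kx < L (2, b * (6 * B + 1), 0) kx →
      (∀ u ∈ vl a b B, ∀ v ∈ vl a b B, u ≠ v → ¬ Adj b B u v →
      (∀ τ < 3, ∃ j j', j < 3 ∧ j' < 3 ∧ j ≠ j' ∧ Adj b B (0, τ, j) u ∧ Adj b B (0, τ, j') u ∧
        Adj b B (0, τ, j) v ∧ Adj b B (0, τ, j') v) → S L R kx u v) →
      ∃ (L R : ℕ → ℝ) (lz rz : ℝ) (l r : ℕ → ℕ → ℝ), Conf a b B L R lz rz l r by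
    obtain ⟨kx, h1, h2⟩ := h.exists_kx hb hB
    rcases h1 with h1 | h1
    · exact key L R h kx h1 h2
    · refine key _ _ h.neg kx (by simpa using h1) ?_
      intro u hu v hv huv hna hcom
      have h3 := h2 u hu v hv huv hna hcom
      unfold S Sep at h3 ⊢
      rcases h3 with h3 | h3
      · right
        simpa using h3
      · left
        simpa using h3
  intro L R h kx hor hsep
  refine ⟨fun m => L (2, m, 0) kx, fun m => R (2, m, 0) kx, L (1, 0, 0) kx, R (1, 0, 0) kx,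
    fun i q => L (3, i, q) kx, fun i q => R (3, i, q) kx, ?_⟩
  refine ⟨⟨?_, ?_, ?_⟩, ?_, ?_, ?_, ?_, ?_, ?_, ?_, hor⟩
  · intro m hm
    exact h.le _ (mem_frame (by omega)) kx
  · intro m hm
    exact h.meet (mem_frame (by omega)) (mem_frame (by omega)) (adj_ff.2 (Or.inl rfl)) kx
  · intro p q hpq hq
    refine hsep _ (mem_frame (by omega)) _ (mem_frame (by omega)) (by
      intro hc
      simp only [Prod.mk.injEq] at hc
      omega) (by rw [adj_ff]; omega) ?_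
    intro τ hτ
    refine ⟨0, 1, by norm_num, by norm_num, by norm_num, ?_, ?_, ?_, ?_⟩ <;>
    · rw [adj_hf]
      simp
  · intro i hi
    refine ⟨?_, ?_, ?_⟩
    · intro q hq
      exact h.le _ (mem_item hi hq) kx
    · intro q hq
      exact h.meet (mem_item hi (by omega)) (mem_item hi hq) (adj_ii.2 ⟨rfl, Or.inl rfl⟩) kx
    · intro p q hpq hq
      refine hsep _ (mem_item hi (by omega)) _ (mem_item hi hq) (by
        intro hc
        simp only [Prod.mk.injEq] at hc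
        omega) (by rw [adj_ii]; omega) ?_
      intro τ hτ
      refine ⟨1, 2, by norm_num, by norm_num, by norm_num, ?_, ?_, ?_, ?_⟩ <;>
      · rw [adj_hi]
        simp
  · intro i hi i' hi' hne q hq q' hq'
    refine hsep _ (mem_item hi hq) _ (mem_item hi' hq') (by
      intro hc
      simp only [Prod.mk.injEq] at hc
      omega) (by rw [adj_ii]; omega) ?_
    intro τ hτ
    refine ⟨1, 2, by norm_num, by norm_num, by norm_num, ?_, ?_, ?_, ?_⟩ <;>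
    · rw [adj_hi]
      simp
  · intro i hi q hq m hm hal
    refine hsep _ (mem_item hi hq) _ (mem_frame hm) (by
      intro hc
      simp only [Prod.mk.injEq] at hc
      omega) (fun hc => adj_fi hc.symm) ?_
    intro τ hτ
    by_cases hτq : q % 3 = τ
    · refine ⟨1, 2, by norm_num, by norm_num, by norm_num, ?_, ?_, ?_, ?_⟩
      · rw [adj_hi]; simp
      · rw [adj_hi]; simp
      · rw [adj_hf]; simp
      · rw [adj_hf, ← hτq, hal]; simp
    · refine ⟨0, 1, by norm_num, by norm_num, by norm_num, ?_, ?_, ?_, ?_⟩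
      · rw [adj_hi]; simp [hτq]
      · rw [adj_hi]; simp
      · rw [adj_hf]; simp
      · rw [adj_hf]; simp
  · refine hsep _ mem_z _ (mem_frame (Nat.zero_le _)) (by simp) (by rw [adj_zf]; omega) ?_
    intro τ hτ
    refine ⟨0, 1, by norm_num, by norm_num, by norm_num, adj_hz, adj_hz, ?_, ?_⟩ <;>
    · rw [adj_hf]
      simp
  · refine hsep _ mem_z _ (mem_frame le_rfl) (by simp) (by rw [adj_zf]; omega) ?_
    intro τ hτ
    refine ⟨0, 1, by norm_num, by norm_num, by norm_num, adj_hz, adj_hz, ?_, ?_⟩ <;>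
    · rw [adj_hf]
      simp
  · intro m h0 h1
    exact h.meet mem_z (mem_frame h1.le) (adj_zf.2 ⟨h0, h1⟩) kx
  · intro i hi q hq
    exact h.meet mem_z (mem_item hi hq) adj_zi kx

/-- **Soundness.** -/
theorem sound (hb : 1 ≤ b) (hB : 1 ≤ B) (h : HasBoxRep (gr a b B).graph 4) :
    ∃ f : ℕ → ℕ, (∀ i < a.length, f i < b) ∧
      ∀ j < b, ∑ i ∈ (Finset.range a.length).filter (fun i => f i = j), a.getD i 0 ≤ B := by
  obtain ⟨L, R, h1, h2⟩ := (lrep_iff (nodup_vl a b B)).1 h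
  obtain ⟨L', R', lz, rz, l, r, hc⟩ := (Rep.mk h1 h2).conf hb hB
  exact hc.pack hb hB

end

end Pool.Agent.TH656.Bx
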